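import Pool.Agent.H801.MVFwd

/-!
# From a set of edges to a clique
-/

set_option autoImplicit false

namespace Pool.Agent.H801.MV

section
variable {n k : ℕ} {E : ℕ → ℕ → Bool} {V : Type} {G : SimpleGraph V} {len : V → V → ℕ}
  {lab : V → Lab} {S : Finset (Sym2 V)} {v : Lab → V}

/-- `x` and `y` are joined by a walk of length at most `c` without the edges of `S` -/
def Rch (G : SimpleGraph V) (len : V → V → ℕ) (S : Finset (Sym2 V)) (v : Lab → V) (x y : ML)
    (c : ℕ) : Prop :=
  ∃ p : (G.deleteEdges (S : Set (Sym2 V))).Walk (v (mn x)) (v (mn y)), wlen len p ≤ c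

theorem Rch.refl (x : ML) : Rch G len S v x x 0 := ⟨SimpleGraph.Walk.nil, by simp⟩

theorem Rch.trans {x y z : ML} {c d : ℕ} (h1 : Rch G len S v x y c) (h2 : Rch G len S v y z d) :
    Rch G len S v x z (c + d) := by
  obtain ⟨p, hp⟩ := h1
  obtain ⟨q, hq⟩ := h2
  exact ⟨p.append q, by rw [wlen_append]; omega⟩

theorem Rch.mono {x y : ML} {c d : ℕ} (h1 : Rch G len S v x y c) (h : c ≤ d) :
    Rch G len S v x y d := by
  obtain ⟨p, hp⟩ := h1
  exact ⟨p, hp.trans h⟩

/-- the situation of the backward direction -/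
structure Ctx (n k : ℕ) (E : ℕ → ℕ → Bool) (G : SimpleGraph V) (len : V → V → ℕ) (lab : V → Lab)
    (S : Finset (Sym2 V)) (v : Lab → V) : Prop where
  rep : Rep n k E G len lab
  npos : 0 < n
  hv : ∀ x, IsV n k E x → lab (v x) = x
  card : S.card ≤ 4 * (k * k)
  far : ∀ c, Rch G len S v sM tM c → 8 * (n * n) * (2 * (n * n) + 2) + 8 * (n * n) ≤ c

theorem Ctx.und_reach (C : Ctx n k E G len lab S v) {x y : ML} (hx : isM n k x) (hy : isM n k y)
    (hxy : x ≠ y) (hu : 2 ≤ und n E x y) : Rch G len S v x y (und n E x y) := by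
  classical
  have hV : ∀ r, r ≤ 4 * (k * k) → IsV n k E (x, y, r) := fun r hr =>
    ⟨hx, hy, Or.inr ⟨hxy, by dsimp only; omega, hr⟩⟩
  have hmx : lab (v (mn x)) = mn x := C.hv _ (isV_mn hx)
  have hmy : lab (v (mn y)) = mn y := C.hv _ (isV_mn hy)
  have hmr : ∀ r, r ≤ 4 * (k * k) → lab (v (x, y, r)) = (x, y, r) := fun r hr => C.hv _ (hV r hr)
  have c1 : ∀ r, col n E (mn x) (x, y, r) = 1 := by
    intro r
    unfold col mn half
    simp [hxy]
  have c2 : ∀ r, col n E (x, y, r) (mn y) = und n E x y - 1 := by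
    intro r
    unfold col mn half
    simp [hxy]
  by_contra hcon
  have key : ∀ r, r ≤ 4 * (k * k) →
      s(v (mn x), v (x, y, r)) ∈ S ∨ s(v (x, y, r), v (mn y)) ∈ S := by
    intro r hr
    by_contra hcc
    rw [not_or] at hcc
    apply hcon
    have a1 : (G.deleteEdges (S : Set (Sym2 V))).Adj (v (mn x)) (v (x, y, r)) := by
      rw [SimpleGraph.deleteEdges_adj]
      refine ⟨(C.rep.adj _ _).2 ?_, fun h => hcc.1 (Finset.mem_coe.1 h)⟩
      rw [hmx, hmr r hr, c1]
      exact Nat.one_pos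
    have a2 : (G.deleteEdges (S : Set (Sym2 V))).Adj (v (x, y, r)) (v (mn y)) := by
      rw [SimpleGraph.deleteEdges_adj]
      refine ⟨(C.rep.adj _ _).2 ?_, fun h => hcc.2 (Finset.mem_coe.1 h)⟩
      rw [hmy, hmr r hr, c2]
      omega
    refine ⟨SimpleGraph.Walk.cons a1 (SimpleGraph.Walk.cons a2 SimpleGraph.Walk.nil), ?_⟩
    rw [SimpleGraph.deleteEdges_adj] at a1 a2
    rw [wlen_cons, wlen_cons, wlen_nil, C.rep.len _ _ a1.1, C.rep.len _ _ a2.1, hmx, hmy,
      hmr r hr, c1, c2]
    omega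
  let f : ℕ → Sym2 V := fun r =>
    if s(v (mn x), v (x, y, r)) ∈ S then s(v (mn x), v (x, y, r)) else s(v (x, y, r), v (mn y))
  have hf : Set.MapsTo f (Finset.range (4 * (k * k) + 1) : Set ℕ) (S : Set (Sym2 V)) := by
    intro r hr
    rw [Finset.mem_coe, Finset.mem_range] at hr
    rw [Finset.mem_coe]
    simp only [f]
    split_ifs with h
    · exact h
    · exact (key r (by omega)).resolve_left h
  have hmem : ∀ r, v (x, y, r) ∈ f r := by
    intro r
    simp only [f]
    split_ifs <;> simp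
  have hmem2 : ∀ r z, z ∈ f r → z = v (mn x) ∨ z = v (mn y) ∨ z = v (x, y, r) := by
    intro r z hz
    simp only [f] at hz
    split_ifs at hz <;> rw [Sym2.mem_iff] at hz <;> tauto
  have hinj : Set.InjOn f (Finset.range (4 * (k * k) + 1) : Set ℕ) := by
    intro r hr r' hr' h
    rw [Finset.mem_coe, Finset.mem_range] at hr hr'
    have h1 : v (x, y, r) ∈ f r' := h ▸ hmem r
    rcases hmem2 r' _ h1 with h2 | h2 | h2
    · have h3 := congrArg lab h2
      rw [hmx, hmr r (by omega)] at h3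
      exact absurd ((congrArg (fun q : Lab => q.2.1) h3).symm) hxy
    · have h3 := congrArg lab h2
      rw [hmy, hmr r (by omega)] at h3
      exact absurd (congrArg (fun q : Lab => q.1) h3) hxy
    · have h3 := congrArg lab h2
      rw [hmr r (by omega), hmr r' (by omega)] at h3
      exact congrArg (fun q : Lab => q.2.2) h3
  have h1 := Finset.card_le_card_of_injOn f hf hinj
  rw [Finset.card_range] at h1
  have h2 := C.card
  omega

theorem und_s0 {i j c : ℕ} : und n E sM (2, i, j, c, 0) = 8 * (n * n) := by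
  unfold und
  rw [und1_s, und1_xs, if_pos rfl, Nat.max_zero]

theorem und_sN (hn : 0 < n) {i j c : ℕ} : und n E sM (2, i, j, c, n * n) = dl n := by
  have h : n * n ≠ 0 := Nat.ne_of_gt (Nat.mul_pos hn hn)
  unfold und
  rw [und1_s, und1_xs, if_neg h, if_pos rfl, Nat.max_zero]

theorem und_t2 {i j c : ℕ} : und n E (2, i, j, c, 2 * (n * n)) tM = 8 * (n * n) := by
  unfold und
  rw [und1_t, und1_tx, if_pos rfl, Nat.max_zero]

theorem und_tN (hn : 0 < n) {i j c : ℕ} : und n E (2, i, j, c, n * n) tM = dl n := by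
  have h : n * n ≠ 2 * (n * n) := by
    have := Nat.mul_pos hn hn
    omega
  unfold und
  rw [und1_t, und1_tx, if_neg h, if_pos rfl, Nat.max_zero]

theorem und_step {i j c p : ℕ} : und n E (2, i, j, c, p) (2, i, j, c, p + 1) =
    8 * (n * n) + wt n E i j c p := by
  unfold und
  rw [und1_ch, und1_ch, if_pos ⟨rfl, rfl, rfl, rfl⟩, if_neg (fun h => by omega),
    if_neg (fun h => by omega), Nat.max_zero]

theorem und_cross {i j c p i' j' c' : ℕ} (hne : ¬ (i = i' ∧ j = j' ∧ c = c'))
    (h : cross n i j i' j' p = true) : und n E (2, i, j, c, p) (2, i', j', c', p) =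
    2 * (n * n) := by
  unfold und
  rw [und1_ch, und1_ch, if_neg (fun h => by omega), if_pos ⟨rfl, hne, h⟩,
    if_neg (fun h => by omega)]
  split_ifs
  · exact max_self _
  · exact Nat.max_zero _

theorem Ctx.N1 (C : Ctx n k E G len lab S v) : 0 < n * n := Nat.mul_pos C.npos C.npos

theorem Ctx.s0 (C : Ctx n k E G len lab S v) {i j c : ℕ} (hi : i < k) (hj : j < k) (hc : c < 2) :
    Rch G len S v sM (2, i, j, c, 0) (8 * (n * n)) := by
  have h := C.und_reach (x := sM) (y := (2, i, j, c, 0)) (Or.inl rfl)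
    (isM_ch hi hj hc (Nat.zero_le _)) (by simp [sM]) (by rw [und_s0]; have := C.N1; omega)
  rwa [und_s0] at h

theorem Ctx.sN (C : Ctx n k E G len lab S v) {i j c : ℕ} (hi : i < k) (hj : j < k) (hc : c < 2) :
    Rch G len S v sM (2, i, j, c, n * n) (dl n) := by
  have h := C.und_reach (x := sM) (y := (2, i, j, c, n * n)) (Or.inl rfl)
    (isM_ch hi hj hc (by omega)) (by simp [sM])
    (by rw [und_sN C.npos]; unfold dl; have := C.N1; omega)
  rwa [und_sN C.npos] at h

theorem Ctx.t2 (C : Ctx n k E G len lab S v) {i j c : ℕ} (hi : i < k) (hj : j < k) (hc : c < 2) :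
    Rch G len S v (2, i, j, c, 2 * (n * n)) tM (8 * (n * n)) := by
  have h := C.und_reach (y := tM) (x := (2, i, j, c, 2 * (n * n)))
    (isM_ch hi hj hc le_rfl) (Or.inr (Or.inl rfl)) (by simp [tM])
    (by rw [und_t2]; have := C.N1; omega)
  rwa [und_t2] at h

theorem Ctx.tN (C : Ctx n k E G len lab S v) {i j c : ℕ} (hi : i < k) (hj : j < k) (hc : c < 2) :
    Rch G len S v (2, i, j, c, n * n) tM (dl n) := by
  have h := C.und_reach (y := tM) (x := (2, i, j, c, n * n))
    (isM_ch hi hj hc (by omega)) (Or.inr (Or.inl rfl)) (by simp [tM])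
    (by rw [und_tN C.npos]; unfold dl; have := C.N1; omega)
  rwa [und_tN C.npos] at h

theorem Ctx.crs (C : Ctx n k E G len lab S v) {i j c p i' j' c' : ℕ} (hi : i < k) (hj : j < k)
    (hc : c < 2) (hp : p ≤ 2 * (n * n)) (hi' : i' < k) (hj' : j' < k) (hc' : c' < 2)
    (hne : ¬ (i = i' ∧ j = j' ∧ c = c')) (h : cross n i j i' j' p = true) :
    Rch G len S v (2, i, j, c, p) (2, i', j', c', p) (2 * (n * n)) := by
  have h1 := C.und_reach (x := (2, i, j, c, p)) (y := (2, i', j', c', p))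
    (isM_ch hi hj hc hp) (isM_ch hi' hj' hc' hp)
    (by
      intro h
      rw [Prod.mk.injEq, Prod.mk.injEq, Prod.mk.injEq, Prod.mk.injEq] at h
      exact hne ⟨h.2.1, h.2.2.1, h.2.2.2.1⟩)
    (by rw [und_cross hne h]; have := C.N1; omega)
  rwa [und_cross hne h] at h1

/-- is the edge from `p` to `p + 1` of the chain `(i, j, c)` deleted -/
def dlt (S : Finset (Sym2 V)) (v : Lab → V) (i j c p : ℕ) : Prop :=
  s(v (mn (2, i, j, c, p)), v (mn (2, i, j, c, p + 1))) ∈ S

open Classical in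
/-- additional length caused by a deleted edge -/
noncomputable def dcost (n : ℕ) (E : ℕ → ℕ → Bool) (S : Finset (Sym2 V)) (v : Lab → V)
    (i j c p : ℕ) : ℕ :=
  if dlt S v i j c p then wt n E i j c p else 0

theorem Ctx.step (C : Ctx n k E G len lab S v) {i j c p : ℕ} (hi : i < k) (hj : j < k)
    (hc : c < 2) (hp : p < 2 * (n * n)) : Rch G len S v (2, i, j, c, p) (2, i, j, c, p + 1)
      (8 * (n * n) + dcost n E S v i j c p) := by
  unfold dcost
  split_ifs with h
  · have h1 := C.und_reach (x := (2, i, j, c, p)) (y := (2, i, j, c, p + 1))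
      (isM_ch hi hj hc (by omega)) (isM_ch hi hj hc (by omega))
      (by
        intro h
        rw [Prod.mk.injEq, Prod.mk.injEq, Prod.mk.injEq, Prod.mk.injEq] at h
        omega)
      (by rw [und_step]; have := C.N1; omega)
    rwa [und_step] at h1
  · have g1 : lab (v (mn (2, i, j, c, p))) = mn (2, i, j, c, p) :=
      C.hv _ (isV_mn (isM_ch hi hj hc (by omega)))
    have g2 : lab (v (mn (2, i, j, c, p + 1))) = mn (2, i, j, c, p + 1) :=
      C.hv _ (isV_mn (isM_ch hi hj hc (by omega)))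
    have hadj : G.Adj (v (mn (2, i, j, c, p))) (v (mn (2, i, j, c, p + 1))) := by
      rw [C.rep.adj, g1, g2, col_ch]
      have := C.N1
      omega
    have a1 : (G.deleteEdges (S : Set (Sym2 V))).Adj (v (mn (2, i, j, c, p)))
        (v (mn (2, i, j, c, p + 1))) := by
      rw [SimpleGraph.deleteEdges_adj]
      exact ⟨hadj, fun h' => h (Finset.mem_coe.1 h')⟩
    refine ⟨SimpleGraph.Walk.cons a1 SimpleGraph.Walk.nil, ?_⟩
    rw [wlen_cons, wlen_nil, C.rep.len _ _ hadj, g1, g2, col_ch]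

theorem Ctx.seg (C : Ctx n k E G len lab S v) {i j c p : ℕ} (hi : i < k) (hj : j < k)
    (hc : c < 2) (d : ℕ) (hp : p + d ≤ 2 * (n * n)) :
    Rch G len S v (2, i, j, c, p) (2, i, j, c, p + d)
      (8 * (n * n) * d + ∑ r ∈ Finset.range d, dcost n E S v i j c (p + r)) := by
  induction d with
  | zero => exact Rch.refl _
  | succ d ih =>
    have h1 := (ih (by omega)).trans (C.step hi hj hc (show p + d < 2 * (n * n) by omega))
    refine h1.mono (le_of_eq ?_)
    rw [Finset.sum_range_succ]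
    ring

theorem sum_ite_le (d p a w : ℕ) :
    ∑ r ∈ Finset.range d, (if p + r = a then w else 0) ≤ w := by
  by_cases h : ∃ r ∈ Finset.range d, p + r = a
  · obtain ⟨r, hr, hra⟩ := h
    rw [Finset.sum_eq_single r]
    · rw [if_pos hra]
    · intro b _ hb
      rw [if_neg (by omega)]
    · intro h
      exact absurd hr h
  · rw [Finset.sum_eq_zero]
    · exact Nat.zero_le _
    · intro r hr
      rw [if_neg (fun h' => h ⟨r, hr, h'⟩)]

theorem Ctx.seg_free (C : Ctx n k E G len lab S v) {i j c p : ℕ} (hi : i < k) (hj : j < k)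
    (hc : c < 2) (q : ℕ) (hpq : p ≤ q) (hq : q ≤ 2 * (n * n))
    (h : ∀ r, p ≤ r → r < q → dcost n E S v i j c r = 0) :
    Rch G len S v (2, i, j, c, p) (2, i, j, c, q) (8 * (n * n) * (q - p)) := by
  obtain ⟨d, rfl⟩ := Nat.exists_eq_add_of_le hpq
  refine (C.seg hi hj hc d hq).mono (le_of_eq ?_)
  rw [Finset.sum_eq_zero]
  · rw [add_zero, Nat.add_sub_cancel_left]
  · intro r hr
    rw [Finset.mem_range] at hr
    exact h (p + r) (by omega) (by omega)

theorem dcost_le (i j c p : ℕ) : dcost n E S v i j c p ≤ wt n E i j c p := by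
  unfold dcost
  split_ifs
  · exact le_rfl
  · exact Nat.zero_le _

theorem Ctx.seg_one (C : Ctx n k E G len lab S v) {i j c p : ℕ} (hi : i < k) (hj : j < k)
    (hc : c < 2) (q : ℕ) (hpq : p ≤ q) (hq : q ≤ 2 * (n * n)) (a : ℕ)
    (h : ∀ r, p ≤ r → r < q → dlt S v i j c r → r = a) :
    Rch G len S v (2, i, j, c, p) (2, i, j, c, q) (8 * (n * n) * (q - p) + wt n E i j c a) := by
  obtain ⟨d, rfl⟩ := Nat.exists_eq_add_of_le hpq
  refine (C.seg hi hj hc d hq).mono ?_
  rw [Nat.add_sub_cancel_left]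
  refine Nat.add_le_add_left ?_ _
  refine (Finset.sum_le_sum (g := fun r => if p + r = a then wt n E i j c a else 0) ?_).trans
    (sum_ite_le d p a _)
  intro r hr
  rw [Finset.mem_range] at hr
  by_cases h1 : p + r = a
  · rw [if_pos h1, h1]
    exact dcost_le _ _ _ _
  · rw [if_neg h1]
    unfold dcost
    rw [if_neg (fun h2 => h1 (h (p + r) (by omega) (by omega) h2))]

theorem Ctx.seg_two (C : Ctx n k E G len lab S v) {i j c p : ℕ} (hi : i < k) (hj : j < k)
    (hc : c < 2) (q : ℕ) (hpq : p ≤ q) (hq : q ≤ 2 * (n * n)) (a b : ℕ)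
    (h : ∀ r, p ≤ r → r < q → dlt S v i j c r → r = a ∨ r = b) :
    Rch G len S v (2, i, j, c, p) (2, i, j, c, q)
      (8 * (n * n) * (q - p) + (wt n E i j c a + wt n E i j c b)) := by
  obtain ⟨d, rfl⟩ := Nat.exists_eq_add_of_le hpq
  refine (C.seg hi hj hc d hq).mono ?_
  rw [Nat.add_sub_cancel_left]
  refine Nat.add_le_add_left ?_ _
  refine (Finset.sum_le_sum (g := fun r => (if p + r = a then wt n E i j c a else 0) +
    (if p + r = b then wt n E i j c b else 0)) ?_).trans ?_
  · intro r hr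
    rw [Finset.mem_range] at hr
    by_cases h1 : p + r = a
    · rw [if_pos h1, h1]
      exact (dcost_le _ _ _ _).trans (Nat.le_add_right _ _)
    · by_cases h3 : p + r = b
      · rw [if_pos h3, h3]
        exact (dcost_le _ _ _ _).trans (Nat.le_add_left _ _)
      · rw [if_neg h1, if_neg h3]
        unfold dcost
        rw [if_neg (fun h2 => (h (p + r) (by omega) (by omega) h2).elim h1 h3)]
  · rw [Finset.sum_add_distrib]
    exact Nat.add_le_add (sum_ite_le d p a _) (sum_ite_le d p b _)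

theorem dcost_useless {i j c p : ℕ}
    (h : dlt S v i j c p → ¬ useful n E i j p = true) : dcost n E S v i j c p = 0 := by
  unfold dcost
  split_ifs with h1
  · unfold wt
    rw [if_neg (h h1)]
  · rfl

theorem Ctx.first (C : Ctx n k E G len lab S v) {i j c : ℕ} (hi : i < k) (hj : j < k)
    (hc : c < 2) : ∃ p, p < n * n ∧ dlt S v i j c p ∧ useful n E i j p = true := by
  by_contra hcon
  have h1 : ∀ r, 0 ≤ r → r < n * n → dcost n E S v i j c r = 0 := by
    intro r _ hr
    exact dcost_useless (fun h h' => hcon ⟨r, hr, h, h'⟩)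
  have h2 := (C.s0 hi hj hc).trans
    ((C.seg_free hi hj hc (n * n) (Nat.zero_le _) (by omega) h1).trans (C.tN hi hj hc))
  have h3 := C.far _ h2
  have N1 := C.N1
  rw [Nat.sub_zero] at h3
  unfold dl at h3
  nlinarith

theorem Ctx.second (C : Ctx n k E G len lab S v) {i j c : ℕ} (hi : i < k) (hj : j < k)
    (hc : c < 2) : ∃ p, n * n ≤ p ∧ p < 2 * (n * n) ∧ dlt S v i j c p ∧
      useful n E i j p = true := by
  by_contra hcon
  have h1 : ∀ r, n * n ≤ r → r < 2 * (n * n) → dcost n E S v i j c r = 0 := by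
    intro r hr0 hr
    exact dcost_useless (fun h h' => hcon ⟨r, hr0, hr, h, h'⟩)
  have h2 := (C.sN hi hj hc).trans
    ((C.seg_free hi hj hc (2 * (n * n)) (by omega) le_rfl h1).trans (C.t2 hi hj hc))
  have h3 := C.far _ h2
  have N1 := C.N1
  rw [show 2 * (n * n) - n * n = n * n by omega] at h3
  unfold dl at h3
  nlinarith

theorem Ctx.mn_inj (C : Ctx n k E G len lab S v) {x y : ML} (hx : isM n k x) (hy : isM n k y)
    (h : v (mn x) = v (mn y)) : x = y := by
  have h1 := congrArg lab h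
  rw [C.hv _ (isV_mn hx), C.hv _ (isV_mn hy)] at h1
  exact congrArg (fun q : Lab => q.1) h1

theorem Ctx.edge_inj (C : Ctx n k E G len lab S v) {i j c p i' j' c' p' : ℕ} (hi : i < k)
    (hj : j < k) (hc : c < 2) (hp : p < 2 * (n * n)) (hi' : i' < k) (hj' : j' < k) (hc' : c' < 2)
    (hp' : p' < 2 * (n * n))
    (h : s(v (mn (2, i, j, c, p)), v (mn (2, i, j, c, p + 1))) =
      s(v (mn (2, i', j', c', p')), v (mn (2, i', j', c', p' + 1)))) :
    i = i' ∧ j = j' ∧ c = c' ∧ p = p' := by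
  rw [Sym2.eq_iff] at h
  rcases h with ⟨h1, h2⟩ | ⟨h1, h2⟩
  · have h3 := C.mn_inj (isM_ch hi hj hc (by omega)) (isM_ch hi' hj' hc' (by omega)) h1
    rw [Prod.mk.injEq, Prod.mk.injEq, Prod.mk.injEq, Prod.mk.injEq] at h3
    exact h3.2
  · have h3 := C.mn_inj (isM_ch hi hj hc (by omega)) (isM_ch hi' hj' hc' (by omega)) h1
    have h4 := C.mn_inj (isM_ch hi hj hc (by omega)) (isM_ch hi' hj' hc' (by omega)) h2
    rw [Prod.mk.injEq, Prod.mk.injEq, Prod.mk.injEq, Prod.mk.injEq] at h3 h4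
    omega

theorem Ctx.exact_pos (C : Ctx n k E G len lab S v) : ∃ a b : ℕ → ℕ → ℕ → ℕ,
    ∀ i j c, i < k → j < k → c < 2 → a i j c < n * n ∧ n * n ≤ b i j c ∧ b i j c < 2 * (n * n) ∧
      useful n E i j (a i j c) = true ∧ useful n E i j (b i j c) = true ∧
      ∀ p < 2 * (n * n), dlt S v i j c p → p = a i j c ∨ p = b i j c := by
  classical
  have H1 : ∀ i j c, i < k → j < k → c < 2 → ∃ p, p < n * n ∧ dlt S v i j c p ∧
      useful n E i j p = true := fun i j c hi hj hc => C.first hi hj hc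
  have H2 : ∀ i j c, i < k → j < k → c < 2 → ∃ p, n * n ≤ p ∧ p < 2 * (n * n) ∧
      dlt S v i j c p ∧ useful n E i j p = true := fun i j c hi hj hc => C.second hi hj hc
  choose! a ha using H1
  choose! b hb using H2
  refine ⟨a, b, ?_⟩
  let pos : ℕ × ℕ × ℕ × ℕ → ℕ :=
    fun q => if q.2.2.2 = 0 then a q.1 q.2.1 q.2.2.1 else b q.1 q.2.1 q.2.2.1
  let f : ℕ × ℕ × ℕ × ℕ → Sym2 V := fun q =>
    s(v (mn (2, q.1, q.2.1, q.2.2.1, pos q)), v (mn (2, q.1, q.2.1, q.2.2.1, pos q + 1)))
  let I : Finset (ℕ × ℕ × ℕ × ℕ) :=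
    Finset.range k ×ˢ Finset.range k ×ˢ Finset.range 2 ×ˢ Finset.range 2
  have hI : ∀ q, q ∈ I ↔ q.1 < k ∧ q.2.1 < k ∧ q.2.2.1 < 2 ∧ q.2.2.2 < 2 := by
    intro q
    simp [I]
  have hpos : ∀ q ∈ I, pos q < 2 * (n * n) := by
    intro q hq
    rw [hI] at hq
    simp only [pos]
    split_ifs
    · have := (ha _ _ _ hq.1 hq.2.1 hq.2.2.1).1
      omega
    · exact (hb _ _ _ hq.1 hq.2.1 hq.2.2.1).2.1
  have hfS : I.image f ⊆ S := by
    intro e he
    rw [Finset.mem_image] at he
    obtain ⟨q, hq, rfl⟩ := he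
    rw [hI] at hq
    simp only [f, pos]
    split_ifs
    · exact (ha _ _ _ hq.1 hq.2.1 hq.2.2.1).2.1
    · exact (hb _ _ _ hq.1 hq.2.1 hq.2.2.1).2.2.1
  have hinj : Set.InjOn f (I : Set (ℕ × ℕ × ℕ × ℕ)) := by
    intro q hq q' hq' h
    rw [Finset.mem_coe] at hq hq'
    have p1 := hpos q hq
    have p2 := hpos q' hq'
    rw [hI] at hq hq'
    have h1 := C.edge_inj hq.1 hq.2.1 hq.2.2.1 p1 hq'.1 hq'.2.1 hq'.2.2.1 p2 h
    obtain ⟨i, j, c, l⟩ := q
    obtain ⟨i', j', c', l'⟩ := q'
    dsimp only at h1 hq hq'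
    obtain ⟨rfl, rfl, rfl, h2⟩ := h1
    have g1 := ha _ _ _ hq.1 hq.2.1 hq.2.2.1
    have g2 := hb _ _ _ hq.1 hq.2.1 hq.2.2.1
    have hl : l = l' := by
      simp only [pos] at h2
      split_ifs at h2 <;> omega
    rw [hl]
  have hcardI : I.card = 4 * (k * k) := by
    simp only [I, Finset.card_product, Finset.card_range]
    ring
  have hS : I.image f = S := by
    apply Finset.eq_of_subset_of_card_le hfS
    rw [Finset.card_image_of_injOn hinj, hcardI]
    exact C.card
  intro i j c hi hj hc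
  have g1 := ha _ _ _ hi hj hc
  have g2 := hb _ _ _ hi hj hc
  refine ⟨g1.1, g2.1, g2.2.1, g1.2.2, g2.2.2.2, ?_⟩
  intro p hp hd
  unfold dlt at hd
  rw [← hS, Finset.mem_image] at hd
  obtain ⟨q, hq, hqe⟩ := hd
  have p1 := hpos q hq
  rw [hI] at hq
  have h1 := C.edge_inj hq.1 hq.2.1 hq.2.2.1 p1 hi hj hc hp hqe
  obtain ⟨i', j', c', l'⟩ := q
  dsimp only at h1 hq
  obtain ⟨rfl, rfl, rfl, h2⟩ := h1
  simp only [pos] at h2
  split_ifs at h2
  · exact Or.inl h2.symm
  · exact Or.inr h2.symm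

theorem code_lt {p : ℕ} (hn : 0 < n) (hp : p < 2 * (n * n)) : code n p < n * n := by
  unfold code
  split_ifs with h
  · exact h
  · have h1 : (p - n * n) / n < n := by
      rw [Nat.div_lt_iff_lt_mul hn]
      omega
    exact pair_lt (Nat.mod_lt _ hn) h1

theorem wt_le {i j c p : ℕ} (hn : 0 < n) (hp : p < 2 * (n * n)) : wt n E i j c p ≤ 5 * (n * n) := by
  have h := code_lt hn hp
  unfold wt
  split_ifs <;> omega

/-- changing the chain in the first half -/
theorem Ctx.no1 (C : Ctx n k E G len lab S v) {a b : ℕ → ℕ → ℕ → ℕ}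
    (H : ∀ i j c, i < k → j < k → c < 2 → a i j c < n * n ∧ n * n ≤ b i j c ∧
      b i j c < 2 * (n * n) ∧ useful n E i j (a i j c) = true ∧ useful n E i j (b i j c) = true ∧
      ∀ p < 2 * (n * n), dlt S v i j c p → p = a i j c ∨ p = b i j c)
    {i j c p i' j' c' : ℕ} (hi : i < k) (hj : j < k) (hc : c < 2) (hp : p ≤ n * n)
    (hi' : i' < k) (hj' : j' < k) (hc' : c' < 2) (h1 : a i j c < p) (h2 : p ≤ a i' j' c')
    (hcr : cross n i' j' i j p = true) : False := by
  obtain ⟨e1, e2, e3, e4, e5, e6⟩ := H i j c hi hj hc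
  obtain ⟨f1, f2, f3, f4, f5, f6⟩ := H i' j' c' hi' hj' hc'
  have hne : ¬ (i' = i ∧ j' = j ∧ c' = c) := by
    rintro ⟨rfl, rfl, rfl⟩
    omega
  have r1 := C.s0 hi' hj' hc'
  have r2 := C.seg_free hi' hj' hc' p (Nat.zero_le _) (by omega) (fun r _ hr => by
    unfold dcost
    rw [if_neg]
    intro hd
    rcases f6 r (by omega) hd with h | h <;> omega)
  have r3 := C.crs hi' hj' hc' (by omega) hi hj hc hne hcr
  have r4 := C.seg_one hi hj hc (2 * (n * n)) (show p ≤ 2 * (n * n) by omega) le_rfl (b i j c)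
    (fun r hr1 hr2 hd => by
      rcases e6 r (by omega) hd with h | h
      · omega
      · exact h)
  have r5 := C.t2 hi hj hc
  have h3 := C.far _ (r1.trans (r2.trans (r3.trans (r4.trans r5))))
  have h4 : wt n E i j c (b i j c) ≤ 5 * (n * n) := wt_le C.npos e3
  have N1 := C.N1
  have h5 : 8 * (n * n) * (p - 0) + 8 * (n * n) * (2 * (n * n) - p) =
      8 * (n * n) * (2 * (n * n)) := by
    rw [← mul_add]
    congr 1
    omega
  nlinarith

/-- changing the chain in the second half -/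
theorem Ctx.no2 (C : Ctx n k E G len lab S v) {a b : ℕ → ℕ → ℕ → ℕ}
    (H : ∀ i j c, i < k → j < k → c < 2 → a i j c < n * n ∧ n * n ≤ b i j c ∧
      b i j c < 2 * (n * n) ∧ useful n E i j (a i j c) = true ∧ useful n E i j (b i j c) = true ∧
      ∀ p < 2 * (n * n), dlt S v i j c p → p = a i j c ∨ p = b i j c)
    {i j c p i' j' c' : ℕ} (hi : i < k) (hj : j < k) (hc : c < 2) (hp : n * n ≤ p)
    (hi' : i' < k) (hj' : j' < k) (hc' : c' < 2) (h1 : b i j c < p) (h2 : p ≤ b i' j' c')
    (hcr : cross n i' j' i j p = true) : False := by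
  obtain ⟨e1, e2, e3, e4, e5, e6⟩ := H i j c hi hj hc
  obtain ⟨f1, f2, f3, f4, f5, f6⟩ := H i' j' c' hi' hj' hc'
  have hne : ¬ (i' = i ∧ j' = j ∧ c' = c) := by
    rintro ⟨rfl, rfl, rfl⟩
    omega
  have r1 := C.s0 hi' hj' hc'
  have r2 := C.seg_one hi' hj' hc' p (Nat.zero_le _) (by omega) (a i' j' c') (fun r _ hr hd => by
    rcases f6 r (by omega) hd with h | h
    · exact h
    · omega)
  have r3 := C.crs hi' hj' hc' (by omega) hi hj hc hne hcr
  have r4 := C.seg_free hi hj hc (2 * (n * n)) (show p ≤ 2 * (n * n) by omega) le_rfl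
    (fun r hr1 hr2 => by
      unfold dcost
      rw [if_neg]
      intro hd
      rcases e6 r (by omega) hd with h | h <;> omega)
  have r5 := C.t2 hi hj hc
  have h3 := C.far _ (r1.trans (r2.trans (r3.trans (r4.trans r5))))
  have h4 : wt n E i' j' c' (a i' j' c') ≤ 5 * (n * n) := wt_le C.npos (by omega)
  have N1 := C.N1
  have h5 : 8 * (n * n) * (p - 0) + 8 * (n * n) * (2 * (n * n) - p) =
      8 * (n * n) * (2 * (n * n)) := by
    rw [← mul_add]
    congr 1
    omega
  nlinarith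

theorem block_lt {a b : ℕ} (h : a / n < b / n) : a < b / n * n ∧ b / n * n ≤ b := by
  have h0 : 0 < n := by
    rcases Nat.eq_zero_or_pos n with h1 | h1
    · subst h1
      simp at h
    · exact h1
  refine ⟨?_, Nat.div_mul_le_self _ _⟩
  rwa [Nat.div_lt_iff_lt_mul h0] at h

theorem cross_row {i j j' p : ℕ} (hp : p ≤ n * n) (h : p % n = 0) :
    cross n i j i j' p = true := by
  simp [cross, hp, h]

theorem cross_same1 {i j p : ℕ} : cross n i j i j p = true := by
  rcases le_total p (n * n) with h | h <;> simp [cross, h]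

theorem cross_col {i i' j p : ℕ} (hp : n * n ≤ p) (h : p % n = 0) :
    cross n i j i' j p = true := by
  simp [cross, hp, h]

theorem Ctx.clique (C : Ctx n k E G len lab S v) : ∃ x : ℕ → ℕ, (∀ i < k, x i < n) ∧
    ∀ i < k, ∀ j < k, i ≠ j → E (x i) (x j) = true := by
  obtain ⟨a, b, H⟩ := C.exact_pos
  have hn := C.npos
  have N1 := C.N1
  -- equal positions in the two copies
  have A01 : ∀ i j, i < k → j < k → a i j 0 = a i j 1 := by
    intro i j hi hj
    obtain ⟨e1, -⟩ := H i j 0 hi hj (by omega)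
    obtain ⟨f1, -⟩ := H i j 1 hi hj (by omega)
    rcases lt_trichotomy (a i j 0) (a i j 1) with h | h | h
    · exact (C.no1 H (c := 0) (c' := 1) (p := a i j 1) hi hj (by omega) (by omega) hi hj (by omega)
        h le_rfl cross_same1).elim
    · exact h
    · exact (C.no1 H (c := 1) (c' := 0) (p := a i j 0) hi hj (by omega) (by omega) hi hj (by omega)
        h le_rfl cross_same1).elim
  have B01 : ∀ i j, i < k → j < k → b i j 0 = b i j 1 := by
    intro i j hi hj
    obtain ⟨e1, e2, -⟩ := H i j 0 hi hj (by omega)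
    obtain ⟨f1, f2, -⟩ := H i j 1 hi hj (by omega)
    rcases lt_trichotomy (b i j 0) (b i j 1) with h | h | h
    · exact (C.no2 H (c := 0) (c' := 1) (p := b i j 1) hi hj (by omega) f2 hi hj (by omega)
        h le_rfl cross_same1).elim
    · exact h
    · exact (C.no2 H (c := 1) (c' := 0) (p := b i j 0) hi hj (by omega) e2 hi hj (by omega)
        h le_rfl cross_same1).elim
  -- equal blocks in the rows and in the columns
  have Arow' : ∀ i j j', i < k → j < k → j' < k → ¬ a i j 0 / n < a i j' 0 / n := by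
    intro i j j' hi hj hj' h
    obtain ⟨f1, -⟩ := H i j' 0 hi hj' (by omega)
    obtain ⟨h1, h2⟩ := block_lt h
    exact C.no1 H (c := 0) (c' := 0) (p := a i j' 0 / n * n) hi hj (by omega) (by omega) hi hj'
      (by omega) h1 h2 (cross_row (by omega) (Nat.mul_mod_left _ _))
  have Arow : ∀ i j j', i < k → j < k → j' < k → a i j 0 / n = a i j' 0 / n := by
    intro i j j' hi hj hj'
    have h1 := Arow' i j j' hi hj hj'
    have h2 := Arow' i j' j hi hj' hj
    omega
  have Bcol' : ∀ i i' j, i < k → i' < k → j < k →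
      ¬ (b i j 0 - n * n) / n < (b i' j 0 - n * n) / n := by
    intro i i' j hi hi' hj h
    obtain ⟨e1, e2, -⟩ := H i j 0 hi hj (by omega)
    obtain ⟨f1, f2, f3, -⟩ := H i' j 0 hi' hj (by omega)
    obtain ⟨h1, h2⟩ := block_lt h
    refine C.no2 H (c := 0) (c' := 0) (p := n * n + (b i' j 0 - n * n) / n * n) hi hj (by omega)
      (by omega) hi' hj (by omega) (by omega) (by omega) (cross_col (by omega) ?_)
    rw [← Nat.add_mul]
    exact Nat.mul_mod_left _ _
  have Bcol : ∀ i i' j, i < k → i' < k → j < k →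
      (b i j 0 - n * n) / n = (b i' j 0 - n * n) / n := by
    intro i i' j hi hi' hj
    have h1 := Bcol' i i' j hi hi' hj
    have h2 := Bcol' i' i j hi' hi hj
    omega
  -- equal codes
  have hsum : ∀ i j c, i < k → j < k → c < 2 →
      8 * (n * n) ≤ wt n E i j c (a i j c) + wt n E i j c (b i j c) := by
    intro i j c hi hj hc
    obtain ⟨e1, e2, e3, e4, e5, e6⟩ := H i j c hi hj hc
    have r2 := C.seg_two hi hj hc (2 * (n * n)) (Nat.zero_le _) le_rfl (a i j c) (b i j c)
      (fun r _ hr hd => e6 r hr hd)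
    have h3 := C.far _ ((C.s0 hi hj hc).trans (r2.trans (C.t2 hi hj hc)))
    rw [Nat.sub_zero] at h3
    nlinarith
  have hcode : ∀ i j, i < k → j < k → a i j 0 = code n (b i j 0) := by
    intro i j hi hj
    obtain ⟨e1, e2, e3, e4, e5, -⟩ := H i j 0 hi hj (by omega)
    obtain ⟨f1, f2, f3, f4, f5, -⟩ := H i j 1 hi hj (by omega)
    have s0 := hsum i j 0 hi hj (by omega)
    have s1 := hsum i j 1 hi hj (by omega)
    rw [← A01 i j hi hj, ← B01 i j hi hj] at s1
    have hb := code_lt hn e3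
    have hca : code n (a i j 0) = a i j 0 := by
      unfold code
      rw [if_pos e1]
    unfold wt at s0 s1
    rw [if_pos e4, if_pos e5, if_pos e1, if_neg (show ¬ b i j 0 < n * n by omega), hca] at s0 s1
    rw [if_pos rfl, if_pos rfl] at s0
    rw [if_neg one_ne_zero, if_neg one_ne_zero] at s1
    omega
  -- the clique
  have key : ∀ i j, i < k → j < k → a i j 0 / n = a i i 0 / n ∧
      a i j 0 % n = (b j j 0 - n * n) / n := by
    intro i j hi hj
    refine ⟨Arow i j i hi hj hi, ?_⟩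
    obtain ⟨e1, e2, e3, -⟩ := H i j 0 hi hj (by omega)
    have h1 := hcode i j hi hj
    rw [← Bcol i j j hi hj hj, h1]
    unfold code
    rw [if_neg (show ¬ b i j 0 < n * n by omega)]
    have h2 : (b i j 0 - n * n) / n < n := by
      rw [Nat.div_lt_iff_lt_mul hn]
      omega
    exact pair_mod h2
  have hxy : ∀ i, i < k → a i i 0 / n = (b i i 0 - n * n) / n := by
    intro i hi
    obtain ⟨e1, e2, e3, e4, -⟩ := H i i 0 hi hi (by omega)
    unfold useful at e4
    rw [if_pos e1] at e4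
    unfold okp at e4
    rw [if_pos rfl, decide_eq_true_eq] at e4
    rw [e4]
    exact (key i i hi hi).2
  refine ⟨fun i => a i i 0 / n, ?_, ?_⟩
  · intro i hi
    obtain ⟨e1, -⟩ := H i i 0 hi hi (by omega)
    exact (Nat.div_lt_iff_lt_mul hn).2 e1
  · intro i hi j hj hij
    obtain ⟨e1, e2, e3, e4, -⟩ := H i j 0 hi hj (by omega)
    unfold useful at e4
    rw [if_pos e1] at e4
    unfold okp at e4
    rw [if_neg hij, (key i j hi hj).1, (key i j hi hj).2, ← hxy j hj] at e4
    exact e4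

/-- **From a set of edges to a clique.** -/
theorem bwd (R : Rep n k E G len lab) (hn : 0 < n) {s t : V} (hs : lab s = mn sM)
    (ht : lab t = mn tM) (S : Finset (Sym2 V)) (hS : S.card ≤ 4 * (k * k))
    (h : ∀ p : (G.deleteEdges (S : Set (Sym2 V))).Walk s t, p.IsPath →
      8 * (n * n) * (2 * (n * n) + 2) + 8 * (n * n) ≤ wlen len p) :
    ∃ x : ℕ → ℕ, (∀ i < k, x i < n) ∧ ∀ i < k, ∀ j < k, i ≠ j → E (x i) (x j) = true := by
  classical
  have : Nonempty V := ⟨s⟩
  have hsurj := R.surj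
  choose! v hv using hsurj
  have e1 : v (mn sM) = s := R.inj (by rw [hv _ (isV_mn (Or.inl rfl)), hs])
  have e2 : v (mn tM) = t := R.inj (by rw [hv _ (isV_mn (Or.inr (Or.inl rfl))), ht])
  have C : Ctx n k E G len lab S v := by
    refine ⟨R, hn, hv, hS, ?_⟩
    rintro c ⟨p, hp⟩
    have h1 := h ((p.copy e1 e2).bypass) (SimpleGraph.Walk.bypass_isPath _)
    have h2 := wlen_bypass_le len (p.copy e1 e2)
    have h3 : wlen len (p.copy e1 e2) = wlen len p := by
      subst e1
      subst e2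
      rfl
    omega
  exact C.clique

end

end Pool.Agent.H801.MV
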