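import Mathlib

/-!
# Shortest Path Most Vital Edges: definitions

A finite simple undirected graph with positive integer edge lengths is given by a matrix of
lengths; only the entries above the diagonal are used, and `0` means that there is no edge.
-/

set_option autoImplicit false

namespace Pool.Agent.H801.MV

/-- The entry in row `i` and column `j` of a matrix given as a list of rows (missing entries
are `0`). -/
def cell (M : List (List ℕ)) (i j : ℕ) : ℕ := (M.getD i []).getD j 0

/-- The length of the edge between `i` and `j`; `0` means that there is no edge. -/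
def edgeLen (M : List (List ℕ)) (i j : ℕ) : ℕ := cell M (min i j) (max i j)

/-- The simple graph with vertex set `Fin M.length` whose edges are the pairs of different
vertices with a positive length. -/
def lenGraph (M : List (List ℕ)) : SimpleGraph (Fin M.length) where
  Adj i j := i ≠ j ∧ 0 < edgeLen M i j
  symm := ⟨fun i j h => ⟨h.1.symm, by
    have h2 := h.2
    unfold edgeLen at *
    rwa [min_comm, max_comm]⟩⟩
  loopless := ⟨fun _ h => h.1 rfl⟩

/-- The total length of a walk, for given lengths of the edges. -/
def wlen {V : Type} {G : SimpleGraph V} (len : V → V → ℕ) {a b : V} (p : G.Walk a b) : ℕ :=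
  (p.darts.map (fun d => len d.fst d.snd)).sum

/-- **Shortest Path Most Vital Edges**, instances `(M, s, t, k, l)`: in the graph with the matrix of
lengths `M`, is there a set `S` of at most `k` edges such that every path from `s` to `t` in the
graph without the edges of `S` has length at least `l`? -/
def SPMVE (x : List (List ℕ) × ℕ × ℕ × ℕ × ℕ) : Prop :=
  ∃ s t : Fin x.1.length, (s : ℕ) = x.2.1 ∧ (t : ℕ) = x.2.2.1 ∧
    ∃ S : Finset (Sym2 (Fin x.1.length)), (S : Set (Sym2 (Fin x.1.length))) ⊆ (lenGraph x.1).edgeSet ∧
      S.card ≤ x.2.2.2.1 ∧
      ∀ p : ((lenGraph x.1).deleteEdges (S : Set (Sym2 (Fin x.1.length)))).Walk s t, p.IsPath →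
        x.2.2.2.2 ≤ wlen (fun a b : Fin x.1.length => edgeLen x.1 a b) p

end Pool.Agent.H801.MV
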