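import Pool.Agent.H801.MVLab

/-!
# From a clique to a set of edges
-/

set_option autoImplicit false

namespace Pool.Agent.H801.MV

/-- the place of the deleted edge in the first half of the chains `(i, j, c)` -/
def cA (n : ℕ) (x : ℕ → ℕ) (i j : ℕ) : ℕ := x i * n + x j
/-- the place of the deleted edge in the second half of the chains `(i, j, c)` -/
def cB (n : ℕ) (x : ℕ → ℕ) (i j : ℕ) : ℕ := n * n + (x j * n + x i)

/-- the potential of the main vertices -/
def phi (n : ℕ) (x : ℕ → ℕ) (m : ML) : ℤ :=
  if m.1 = 0 then 0 else if m.1 = 1 then 8 * (n * n) * (2 * (n * n) + 2) + 8 * (n * n)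
  else 8 * (n * n) * (m.2.2.2.2 + 1) +
    (if cA n x m.2.1 m.2.2.1 < m.2.2.2.2 then
      (if m.2.2.2.1 = 0 then 3 * (n * n) + (cA n x m.2.1 m.2.2.1 : ℤ)
        else 5 * (n * n) - (cA n x m.2.1 m.2.2.1 : ℤ)) else 0) +
    (if cB n x m.2.1 m.2.2.1 < m.2.2.2.2 then
      (if m.2.2.2.1 = 0 then 5 * (n * n) - (cA n x m.2.1 m.2.2.1 : ℤ)
        else 3 * (n * n) + (cA n x m.2.1 m.2.2.1 : ℤ)) else 0)

section
variable {n k : ℕ} {E : ℕ → ℕ → Bool} {x : ℕ → ℕ}

theorem pair_lt {a b n : ℕ} (ha : a < n) (hb : b < n) : a * n + b < n * n := by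
  have h1 : (a + 1) * n ≤ n * n := Nat.mul_le_mul_right _ ha
  have h2 : (a + 1) * n = a * n + n := by ring
  omega

theorem pair_div {a b n : ℕ} (hb : b < n) : (a * n + b) / n = a := by
  rw [Nat.add_comm, Nat.add_mul_div_right _ _ (by omega), Nat.div_eq_of_lt hb, zero_add]

theorem pair_mod {a b n : ℕ} (hb : b < n) : (a * n + b) % n = b := by
  rw [Nat.add_comm, Nat.add_mul_mod_self_right, Nat.mod_eq_of_lt hb]

theorem pair_lt_iff {a b n p : ℕ} (hb : b < n) (hp : p % n = 0) : a * n + b < p ↔ a < p / n := by
  have h1 : n * (p / n) + p % n = p := Nat.div_add_mod p n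
  rw [hp, add_zero] at h1
  constructor
  · intro h
    by_contra hcon
    have h2 : n * (p / n) ≤ n * a := Nat.mul_le_mul_left _ (not_lt.1 hcon)
    have h3 : n * a = a * n := Nat.mul_comm _ _
    omega
  · intro h
    have h2 : n * (a + 1) ≤ n * (p / n) := Nat.mul_le_mul_left _ h
    have h3 : n * (a + 1) = a * n + n := by ring
    omega

theorem okp_true (hc : ∀ i < k, ∀ j < k, i ≠ j → E (x i) (x j) = true) {i j : ℕ} (hi : i < k)
    (hj : j < k) : okp E i j (x i) (x j) = true := by
  unfold okp
  by_cases h : i = j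
  · subst h
    simp
  · rw [if_neg h]
    exact hc i hi j hj h

theorem cA_lt (hx : ∀ i < k, x i < n) {i j : ℕ} (hi : i < k) (hj : j < k) :
    cA n x i j < n * n := pair_lt (hx i hi) (hx j hj)

theorem cB_lt (hx : ∀ i < k, x i < n) {i j : ℕ} (hi : i < k) (hj : j < k) :
    cB n x i j < 2 * (n * n) := by
  have := pair_lt (hx j hj) (hx i hi)
  unfold cB
  omega

theorem le_cB {i j : ℕ} : n * n ≤ cB n x i j := Nat.le_add_right _ _

theorem wt_cA (hx : ∀ i < k, x i < n) (hc : ∀ i < k, ∀ j < k, i ≠ j → E (x i) (x j) = true)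
    {i j c : ℕ} (hi : i < k) (hj : j < k) : wt n E i j c (cA n x i j) =
      if c = 0 then 3 * (n * n) + cA n x i j else 5 * (n * n) - cA n x i j := by
  have h1 := cA_lt hx hi hj
  have h2 : useful n E i j (cA n x i j) = true := by
    unfold useful
    rw [if_pos h1]
    unfold cA
    rw [pair_div (hx j hj), pair_mod (hx j hj)]
    exact okp_true hc hi hj
  have h3 : code n (cA n x i j) = cA n x i j := by
    unfold code
    rw [if_pos h1]
  unfold wt
  rw [if_pos h2, if_pos h1, h3]

theorem wt_cB (hx : ∀ i < k, x i < n) (hc : ∀ i < k, ∀ j < k, i ≠ j → E (x i) (x j) = true)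
    {i j c : ℕ} (hi : i < k) (hj : j < k) : wt n E i j c (cB n x i j) =
      if c = 0 then 5 * (n * n) - cA n x i j else 3 * (n * n) + cA n x i j := by
  have h1 : ¬ cB n x i j < n * n := not_lt.2 le_cB
  have h0 : cB n x i j - n * n = x j * n + x i := by
    unfold cB
    omega
  have h2 : useful n E i j (cB n x i j) = true := by
    unfold useful
    rw [if_neg h1, h0, pair_div (hx i hi), pair_mod (hx i hi)]
    exact okp_true hc hi hj
  have h3 : code n (cB n x i j) = cA n x i j := by
    unfold code
    rw [if_neg h1, h0, pair_div (hx i hi), pair_mod (hx i hi)]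
    rfl
  unfold wt
  rw [if_pos h2, if_neg h1, h3]

theorem phi_s : phi n x sM = 0 := by
  simp [phi, sM]

theorem phi_t : phi n x tM = 8 * (n * n) * (2 * (n * n) + 2) + 8 * (n * n) := by
  simp [phi, tM]

theorem phi_ch {i j c p : ℕ} : phi n x (2, i, j, c, p) = 8 * (n * n) * (p + 1) +
    (if cA n x i j < p then
      (if c = 0 then 3 * (n * n) + (cA n x i j : ℤ) else 5 * (n * n) - (cA n x i j : ℤ)) else 0) +
    (if cB n x i j < p then
      (if c = 0 then 5 * (n * n) - (cA n x i j : ℤ) else 3 * (n * n) + (cA n x i j : ℤ)) else 0) := by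
  simp [phi]

/-- bounds for the detours -/
theorem det_bounds (hx : ∀ i < k, x i < n) {i j : ℕ} (hi : i < k) (hj : j < k) (c : ℕ) :
    (3 * (n * n) : ℤ) ≤ (if c = 0 then 3 * (n * n) + (cA n x i j : ℤ)
      else 5 * (n * n) - (cA n x i j : ℤ)) ∧
    (if c = 0 then 3 * (n * n) + (cA n x i j : ℤ)
      else 5 * (n * n) - (cA n x i j : ℤ)) ≤ (5 * (n * n) : ℤ) := by
  have h1 : (cA n x i j : ℤ) < n * n := by exact_mod_cast cA_lt hx hi hj
  have h2 : (0 : ℤ) ≤ cA n x i j := by positivity
  split_ifs <;> constructor <;> linarith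

theorem det_sum (q : ℤ) (c : ℕ) : (if c = 0 then 3 * (n * n) + q else 5 * (n * n) - q) +
    (if c = 0 then 5 * (n * n) - q else 3 * (n * n) + q) = (8 * (n * n) : ℤ) := by
  split_ifs <;> ring

theorem cA_lt_iff (hx : ∀ i < k, x i < n) {i j j' p : ℕ} (hj : j < k) (hj' : j' < k)
    (h : j = j' ∨ p % n = 0) : cA n x i j < p ↔ cA n x i j' < p := by
  rcases h with rfl | h
  · rfl
  · unfold cA
    rw [pair_lt_iff (hx j hj) h, pair_lt_iff (hx j' hj') h]

theorem cB_lt_iff (hx : ∀ i < k, x i < n) {i i' j p : ℕ} (hi : i < k) (hi' : i' < k)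
    (hp : n * n ≤ p) (h : i = i' ∨ p % n = 0) : cB n x i j < p ↔ cB n x i' j < p := by
  rcases h with rfl | h
  · rfl
  · have h1 : (p - n * n) % n = 0 := by
      have h2 : n ∣ p := Nat.dvd_of_mod_eq_zero h
      exact Nat.mod_eq_zero_of_dvd ((Nat.dvd_sub h2 (Dvd.intro _ rfl)))
    have h3 := pair_lt_iff (a := x j) (hx i hi) h1
    have h4 := pair_lt_iff (a := x j) (hx i' hi') h1
    unfold cB
    constructor
    · intro h5
      have := h4.2 (h3.1 (by omega))
      omega
    · intro h5
      have := h3.2 (h4.1 (by omega))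
      omega

/-- the potential changes by at most the length, for the edges that cannot be deleted -/
theorem phi_und1 (hx : ∀ i < k, x i < n) (hc : ∀ i < k, ∀ j < k, i ≠ j → E (x i) (x j) = true)
    {a b : ML} (ha : isM n k a) (hb : isM n k b) (h : und1 n E a b ≠ 0) :
    |phi n x b - phi n x a| ≤ (und1 n E a b : ℤ) := by
  obtain ⟨h1, i, j, c, p⟩ := a
  obtain ⟨h2, i', j', c', p'⟩ := b
  rcases ha with ha | ha | ⟨ha, hi, hj, hc2, hp⟩
  · rw [ha] at h ⊢
    rcases hb with hb | hb | ⟨hb, hi', hj', hc2', hp'⟩
    · rw [hb] at h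
      exact absurd und1_xs h
    · rw [hb] at h
      exact absurd und1_st h
    · dsimp only at hb hi' hj' hc2' hp'
      subst hb
      rw [und1_s] at h ⊢
      rw [phi_s, phi_ch]
      have e1 := cA_lt hx hi' hj'
      have e2 : n * n ≤ cB n x i' j' := le_cB
      obtain ⟨e3, e4⟩ := det_bounds hx hi' hj' c'
      split_ifs at h with g1 g2
      · subst g1
        simp
      · subst g2
        rw [if_neg g1, if_pos rfl, if_pos e1, if_neg (show ¬ cB n x i' j' < n * n by omega)]
        have e5 : (0 : ℤ) ≤ 8 * (n * n) * (n * n) := by positivity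
        have e6 : (0 : ℤ) ≤ n * n := by positivity
        unfold dl
        push_cast
        rw [abs_le]
        constructor <;> linarith
      · exact absurd rfl h
  · rw [ha] at h
    exact absurd und1_tx h
  · dsimp only at ha hi hj hc2 hp
    subst ha
    have e1 := cA_lt hx hi hj
    have e2 : n * n ≤ cB n x i j := le_cB
    have e2' := cB_lt hx hi hj
    obtain ⟨e3, e4⟩ := det_bounds hx hi hj c
    have e7 := det_sum (n := n) (cA n x i j : ℤ) c
    rcases hb with hb | hb | ⟨hb, hi', hj', hc2', hp'⟩
    · rw [hb] at h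
      exact absurd und1_xs h
    · rw [hb] at h ⊢
      rw [und1_t] at h ⊢
      rw [phi_t, phi_ch]
      have e5 : (0 : ℤ) ≤ 8 * (n * n) * (n * n) := by positivity
      have e6 : (0 : ℤ) ≤ n * n := by positivity
      split_ifs at h with g1 g2
      · subst g1
        rw [if_pos rfl, if_pos (show cA n x i j < 2 * (n * n) by omega), if_pos e2']
        push_cast
        rw [abs_le]
        constructor <;> linarith
      · subst g2
        rw [if_neg g1, if_pos rfl, if_pos e1, if_neg (show ¬ cB n x i j < n * n by omega)]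
        unfold dl
        push_cast
        rw [abs_le]
        constructor <;> linarith
      · exact absurd rfl h
    · dsimp only at hb hi' hj' hc2' hp'
      subst hb
      rw [und1_ch] at h
      have e6 : (0 : ℤ) ≤ n * n := by positivity
      split_ifs at h with g1 g2
      · have hU : und1 n E (2, i, j, c, p) (2, i', j', c', p') = 8 * (n * n) + wt n E i j c p := by
          rw [und1_ch, if_pos g1]
        rw [hU, phi_ch, phi_ch]
        obtain ⟨rfl, rfl, rfl, rfl⟩ := g1
        have w0 : (0 : ℤ) ≤ (wt n E i j c p : ℤ) := by positivity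
        have hA : p = cA n x i j → (wt n E i j c p : ℤ) =
            if c = 0 then 3 * (n * n) + (cA n x i j : ℤ) else 5 * (n * n) - (cA n x i j : ℤ) := by
          intro hpA
          rw [hpA, wt_cA hx hc hi hj]
          split_ifs
          · push_cast; ring
          · rw [Nat.cast_sub (by omega)]; push_cast; ring
        have hB : p = cB n x i j → (wt n E i j c p : ℤ) =
            if c = 0 then 5 * (n * n) - (cA n x i j : ℤ) else 3 * (n * n) + (cA n x i j : ℤ) := by
          intro hpB
          rw [hpB, wt_cB hx hc hi hj]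
          split_ifs
          · rw [Nat.cast_sub (by omega)]; push_cast; ring
          · push_cast; ring
        rcases lt_trichotomy p (cA n x i j) with k1 | k1 | k1
        · rw [if_neg (show ¬ cA n x i j < p + 1 by omega), if_neg (show ¬ cB n x i j < p + 1 by omega),
            if_neg (show ¬ cA n x i j < p by omega), if_neg (show ¬ cB n x i j < p by omega)]
          push_cast
          rw [abs_le]
          constructor <;> linarith
        · rw [if_pos (show cA n x i j < p + 1 by omega), if_neg (show ¬ cB n x i j < p + 1 by omega),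
            if_neg (show ¬ cA n x i j < p by omega), if_neg (show ¬ cB n x i j < p by omega)]
          have := hA k1
          push_cast
          rw [abs_le]
          constructor <;> linarith
        · rcases lt_trichotomy p (cB n x i j) with k2 | k2 | k2
          · rw [if_pos (show cA n x i j < p + 1 by omega),
              if_neg (show ¬ cB n x i j < p + 1 by omega),
              if_pos (show cA n x i j < p by omega), if_neg (show ¬ cB n x i j < p by omega)]
            push_cast
            rw [abs_le]
            constructor <;> linarith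
          · rw [if_pos (show cA n x i j < p + 1 by omega),
              if_pos (show cB n x i j < p + 1 by omega),
              if_pos (show cA n x i j < p by omega), if_neg (show ¬ cB n x i j < p by omega)]
            have := hB k2
            push_cast
            rw [abs_le]
            constructor <;> linarith
          · rw [if_pos (show cA n x i j < p + 1 by omega),
              if_pos (show cB n x i j < p + 1 by omega),
              if_pos (show cA n x i j < p by omega), if_pos (show cB n x i j < p by omega)]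
            push_cast
            rw [abs_le]
            constructor <;> linarith
      · have hU : und1 n E (2, i, j, c, p) (2, i', j', c', p') = 2 * (n * n) := by
          rw [und1_ch, if_neg g1, if_pos g2]
        rw [hU, phi_ch, phi_ch]
        obtain ⟨rfl, hne, hcr⟩ := g2
        obtain ⟨e3', e4'⟩ := det_bounds hx hi' hj' c'
        have e7' := det_sum (n := n) (cA n x i' j' : ℤ) c'
        have f1 := cA_lt hx hi' hj'
        have f2 : n * n ≤ cB n x i' j' := le_cB
        unfold cross at hcr
        rw [Bool.or_eq_true, Bool.and_eq_true, Bool.and_eq_true, Bool.and_eq_true,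
          Bool.and_eq_true, Bool.or_eq_true, Bool.or_eq_true] at hcr
        simp only [decide_eq_true_eq] at hcr
        rcases hcr with ⟨⟨hp1, rfl⟩, hjj⟩ | ⟨⟨hp1, rfl⟩, hii⟩
        · have hiff := cA_lt_iff (i := i) hx hj hj' hjj
          rw [if_neg (show ¬ cB n x i j < p by omega), if_neg (show ¬ cB n x i j' < p by omega)]
          by_cases hcut : cA n x i j < p
          · rw [if_pos hcut, if_pos (hiff.1 hcut)]
            push_cast
            rw [abs_le]
            constructor <;> linarith
          · rw [if_neg hcut, if_neg (fun h => hcut (hiff.2 h))]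
            push_cast
            rw [abs_le]
            constructor <;> linarith
        · have hiff := cB_lt_iff (j := j) hx hi hi' hp1 hii
          rw [if_pos (show cA n x i j < p by omega), if_pos (show cA n x i' j < p by omega)]
          by_cases hcut : cB n x i j < p
          · rw [if_pos hcut, if_pos (hiff.1 hcut)]
            push_cast
            rw [abs_le]
            constructor <;> linarith
          · rw [if_neg hcut, if_neg (fun h => hcut (hiff.2 h))]
            push_cast
            rw [abs_le]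
            constructor <;> linarith
      · exact absurd rfl h

theorem phi_und (hx : ∀ i < k, x i < n) (hc : ∀ i < k, ∀ j < k, i ≠ j → E (x i) (x j) = true)
    {a b : ML} (ha : isM n k a) (hb : isM n k b) (h : und n E a b ≠ 0) :
    |phi n x b - phi n x a| ≤ (und n E a b : ℤ) := by
  unfold und at h ⊢
  by_cases h1 : und1 n E a b = 0
  · have h2 : und1 n E b a ≠ 0 := by
      intro h2
      rw [h1, h2] at h
      exact h rfl
    have h3 := phi_und1 hx hc hb ha h2
    rw [abs_sub_comm] at h3
    refine h3.trans ?_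
    exact_mod_cast le_max_right _ _
  · refine (phi_und1 hx hc ha hb h1).trans ?_
    exact_mod_cast le_max_left _ _

/-- the label of a main vertex -/
def mn (x : ML) : Lab := (x, x, 0)

/-- the potential of all vertices -/
def Phi (n : ℕ) (x : ℕ → ℕ) (a : Lab) : ℤ :=
  if a.1 = a.2.1 then phi n x a.1
  else if phi n x a.1 < phi n x a.2.1 then phi n x a.1 + 1
  else if phi n x a.2.1 < phi n x a.1 then phi n x a.1 - 1 else phi n x a.1

/-- the deleted edges -/
def Del (n k : ℕ) (x : ℕ → ℕ) (a b : Lab) : Prop :=
  ∃ i < k, ∃ j < k, ∃ c < 2, ∃ p, (p = cA n x i j ∨ p = cB n x i j) ∧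
    ((a = mn (2, i, j, c, p) ∧ b = mn (2, i, j, c, p + 1)) ∨
      (b = mn (2, i, j, c, p) ∧ a = mn (2, i, j, c, p + 1)))

theorem phi_ord {i j c p : ℕ} (hA : p ≠ cA n x i j) (hB : p ≠ cB n x i j) :
    phi n x (2, i, j, c, p + 1) - phi n x (2, i, j, c, p) = 8 * (n * n) := by
  rw [phi_ch, phi_ch]
  by_cases k1 : cA n x i j < p
  · rw [if_pos (show cA n x i j < p + 1 by omega), if_pos k1]
    by_cases k2 : cB n x i j < p
    · rw [if_pos (show cB n x i j < p + 1 by omega), if_pos k2]
      push_cast
      ring
    · rw [if_neg (show ¬ cB n x i j < p + 1 by omega), if_neg k2]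
      push_cast
      ring
  · rw [if_neg (show ¬ cA n x i j < p + 1 by omega), if_neg k1]
    by_cases k2 : cB n x i j < p
    · rw [if_pos (show cB n x i j < p + 1 by omega), if_pos k2]
      push_cast
      ring
    · rw [if_neg (show ¬ cB n x i j < p + 1 by omega), if_neg k2]
      push_cast
      ring

theorem Phi_half (hx : ∀ i < k, x i < n) (hc : ∀ i < k, ∀ j < k, i ≠ j → E (x i) (x j) = true)
    {m : Lab} {y : ML} (hm : IsV n k E m) (hmm : m.1 ≠ m.2.1) (h : 0 < half n E m y) :
    |phi n x y - Phi n x m| ≤ (half n E m y : ℤ) := by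
  obtain ⟨h1, h2, h3⟩ := hm
  have h4 := h3.resolve_left (fun h => hmm h.1)
  have h5 := phi_und hx hc h1 h2 h4.2.1
  unfold Phi
  rw [if_neg hmm]
  unfold half at h ⊢
  by_cases k1 : m.1 = y
  · rw [if_pos k1, ← k1]
    push_cast
    rw [abs_le]
    split_ifs <;> constructor <;> linarith
  · rw [if_neg k1] at h ⊢
    by_cases k2 : m.2.1 = y
    · rw [if_pos k2] at h ⊢
      rw [← k2]
      rw [Nat.cast_sub (by omega)]
      push_cast
      rw [abs_le] at h5 ⊢
      have h6 : (1 : ℤ) < und n E m.1 m.2.1 := by exact_mod_cast (show 1 < und n E m.1 m.2.1 by omega)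
      obtain ⟨h7, h8⟩ := h5
      split_ifs with g1 g2
      · constructor <;> linarith
      · constructor <;> linarith
      · constructor <;> linarith
    · rw [if_neg k2] at h
      exact absurd h (lt_irrefl _)

theorem Phi_lip (hx : ∀ i < k, x i < n) (hc : ∀ i < k, ∀ j < k, i ≠ j → E (x i) (x j) = true)
    {a b : Lab} (ha : IsV n k E a) (hb : IsV n k E b) (h : 0 < col n E a b)
    (hd : ¬ Del n k x a b) : |Phi n x b - Phi n x a| ≤ (col n E a b : ℤ) := by
  unfold col at h ⊢
  by_cases k1 : a.1 = a.2.1
  · rw [if_pos k1] at h ⊢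
    by_cases k2 : b.1 = b.2.1
    · rw [if_pos k2] at h ⊢
      by_cases k3 : (ord1 a.1 b.1 || ord1 b.1 a.1) = true
      · rw [if_pos k3]
        have ha' : a = mn a.1 := by
          obtain ⟨_, _, h3⟩ := ha
          have := h3.resolve_right (fun h => h.1 k1)
          unfold mn
          exact Prod.ext rfl (Prod.ext k1.symm this.2)
        have hb' : b = mn b.1 := by
          obtain ⟨_, _, h3⟩ := hb
          have := h3.resolve_right (fun h => h.1 k2)
          unfold mn
          exact Prod.ext rfl (Prod.ext k2.symm this.2)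
        have e1 : Phi n x a = phi n x a.1 := by
          unfold Phi
          rw [if_pos k1]
        have e2 : Phi n x b = phi n x b.1 := by
          unfold Phi
          rw [if_pos k2]
        rw [e1, e2]
        rw [Bool.or_eq_true] at k3
        have haM := ha.1
        have hbM := hb.1
        obtain ⟨⟨a1, i, j, c, p⟩, aa⟩ := a
        obtain ⟨⟨b1, i', j', c', p'⟩, bb⟩ := b
        dsimp only at k3 ha' hb' haM hbM ⊢
        rcases k3 with k3 | k3
        · rw [ord1_iff] at k3
          obtain ⟨rfl, rfl, rfl, rfl, rfl, rfl⟩ := k3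
          have hM : i < k ∧ j < k ∧ c < 2 ∧ p ≤ 2 * (n * n) := by
            rcases haM with h | h | h
            · simp [sM] at h
            · simp [tM] at h
            · exact h.2
          rw [phi_ord]
          · rw [abs_of_nonneg (by positivity)]
            push_cast
            exact le_rfl
          · intro hp
            exact hd ⟨i, hM.1, j, hM.2.1, c, hM.2.2.1, p, Or.inl hp, Or.inl ⟨ha', hb'⟩⟩
          · intro hp
            exact hd ⟨i, hM.1, j, hM.2.1, c, hM.2.2.1, p, Or.inr hp, Or.inl ⟨ha', hb'⟩⟩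
        · rw [ord1_iff] at k3
          obtain ⟨rfl, rfl, rfl, rfl, rfl, rfl⟩ := k3
          have hM : i' < k ∧ j' < k ∧ c' < 2 ∧ p' ≤ 2 * (n * n) := by
            rcases hbM with h | h | h
            · simp [sM] at h
            · simp [tM] at h
            · exact h.2
          rw [abs_sub_comm, phi_ord]
          · rw [abs_of_nonneg (by positivity)]
            push_cast
            exact le_rfl
          · intro hp
            exact hd ⟨i', hM.1, j', hM.2.1, c', hM.2.2.1, p', Or.inl hp, Or.inr ⟨hb', ha'⟩⟩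
          · intro hp
            exact hd ⟨i', hM.1, j', hM.2.1, c', hM.2.2.1, p', Or.inr hp, Or.inr ⟨hb', ha'⟩⟩
      · rw [if_neg k3] at h
        exact absurd h (lt_irrefl _)
    · rw [if_neg k2] at h ⊢
      have e1 : Phi n x a = phi n x a.1 := by
        unfold Phi
        rw [if_pos k1]
      rw [e1, abs_sub_comm]
      exact Phi_half hx hc hb k2 h
  · rw [if_neg k1] at h ⊢
    by_cases k2 : b.1 = b.2.1
    · rw [if_pos k2] at h ⊢
      have e1 : Phi n x b = phi n x b.1 := by
        unfold Phi
        rw [if_pos k2]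
      rw [e1]
      exact Phi_half hx hc ha k1 h
    · rw [if_neg k2] at h
      exact absurd h (lt_irrefl _)

theorem isM_ch {i j c p : ℕ} (hi : i < k) (hj : j < k) (hc : c < 2) (hp : p ≤ 2 * (n * n)) :
    isM n k (2, i, j, c, p) := Or.inr (Or.inr ⟨rfl, hi, hj, hc, hp⟩)

theorem isV_mn {y : ML} (hy : isM n k y) : IsV n k E (mn y) := ⟨hy, hy, Or.inl ⟨rfl, rfl⟩⟩

theorem col_ch {i j c p : ℕ} : col n E (mn (2, i, j, c, p)) (mn (2, i, j, c, p + 1)) =
    8 * (n * n) := by
  unfold col mn
  dsimp only
  rw [if_pos rfl, if_pos rfl, if_pos]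
  rw [Bool.or_eq_true]
  left
  rw [ord1_iff]
  exact ⟨rfl, rfl, rfl, rfl, rfl, rfl⟩

/-- **From a clique to a set of edges.** -/
theorem fwd {V : Type} {G : SimpleGraph V} {len : V → V → ℕ} {lab : V → Lab}
    (R : Rep n k E G len lab) (hx : ∀ i < k, x i < n)
    (hc : ∀ i < k, ∀ j < k, i ≠ j → E (x i) (x j) = true) {s t : V} (hs : lab s = mn sM)
    (ht : lab t = mn tM) :
    ∃ S : Finset (Sym2 V), (S : Set (Sym2 V)) ⊆ G.edgeSet ∧ S.card ≤ 4 * (k * k) ∧
      ∀ p : (G.deleteEdges (S : Set (Sym2 V))).Walk s t,
        8 * (n * n) * (2 * (n * n) + 2) + 8 * (n * n) ≤ wlen len p := by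
  classical
  have : Nonempty V := ⟨s⟩
  have hsurj := R.surj
  choose! v hv using hsurj
  let cut : ℕ × ℕ × ℕ × ℕ → ℕ := fun q => if q.2.2.2 = 0 then cA n x q.1 q.2.1 else cB n x q.1 q.2.1
  let f : ℕ × ℕ × ℕ × ℕ → Sym2 V := fun q =>
    s(v (mn (2, q.1, q.2.1, q.2.2.1, cut q)), v (mn (2, q.1, q.2.1, q.2.2.1, cut q + 1)))
  let I : Finset (ℕ × ℕ × ℕ × ℕ) :=
    Finset.range k ×ˢ Finset.range k ×ˢ Finset.range 2 ×ˢ Finset.range 2
  have hI : ∀ q, q ∈ I ↔ q.1 < k ∧ q.2.1 < k ∧ q.2.2.1 < 2 ∧ q.2.2.2 < 2 := by
    intro q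
    simp [I]
  have hcut : ∀ q ∈ I, cut q < 2 * (n * n) := by
    intro q hq
    rw [hI] at hq
    have h1 := cA_lt hx hq.1 hq.2.1
    have h2 := cB_lt hx hq.1 hq.2.1
    simp only [cut]
    split_ifs
    · omega
    · exact h2
  refine ⟨I.image f, ?_, ?_, ?_⟩
  · intro e he
    rw [Finset.mem_coe, Finset.mem_image] at he
    obtain ⟨q, hq, rfl⟩ := he
    have h1 := hcut q hq
    rw [hI] at hq
    have hn : 0 < n := lt_of_le_of_lt (Nat.zero_le _) (hx _ hq.1)
    rw [SimpleGraph.mem_edgeSet, R.adj, hv _ (isV_mn (isM_ch hq.1 hq.2.1 hq.2.2.1 (by omega))),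
      hv _ (isV_mn (isM_ch hq.1 hq.2.1 hq.2.2.1 (by omega))), col_ch]
    positivity
  · refine Finset.card_image_le.trans ?_
    simp only [I, Finset.card_product, Finset.card_range]
    apply le_of_eq
    ring
  · intro p
    have h := wlen_pot len (fun a => Phi n x (lab a)) (fun a b hab => ?_) p
    · rw [hs, ht] at h
      have e1 : Phi n x (mn sM) = 0 := by
        unfold Phi mn
        rw [if_pos rfl]
        exact phi_s
      have e2 : Phi n x (mn tM) = 8 * (n * n) * (2 * (n * n) + 2) + 8 * (n * n) := by
        unfold Phi mn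
        rw [if_pos rfl]
        exact phi_t
      rw [e1, e2, sub_zero] at h
      exact_mod_cast h
    · rw [SimpleGraph.deleteEdges_adj] at hab
      obtain ⟨hab1, hab2⟩ := hab
      rw [R.len a b hab1]
      refine (le_abs_self _).trans (Phi_lip hx hc (R.val a) (R.val b) ((R.adj a b).1 hab1) ?_)
      rintro ⟨i, hi, j, hj, c, hc2, p, hp, hcase⟩
      apply hab2
      rw [Finset.mem_coe, Finset.mem_image]
      have key : ∃ b ∈ Finset.range 2, p = cut (i, j, c, b) := by
        rcases hp with hp | hp
        · exact ⟨0, by simp, by simp [cut, hp]⟩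
        · exact ⟨1, by simp, by simp [cut, hp]⟩
      obtain ⟨l, hl, hpl⟩ := key
      have hq : (i, j, c, l) ∈ I := by
        rw [hI]
        exact ⟨hi, hj, hc2, Finset.mem_range.1 hl⟩
      refine ⟨(i, j, c, l), hq, ?_⟩
      have h1 := hcut _ hq
      have g1 := hv _ (isV_mn (E := E) (isM_ch (p := p) hi hj hc2 (by omega)))
      have g2 := hv _ (isV_mn (E := E) (isM_ch (p := p + 1) hi hj hc2 (by omega)))
      simp only [f]
      rw [← hpl]
      rcases hcase with ⟨k1, k2⟩ | ⟨k1, k2⟩
      · rw [← k1] at g1
        rw [← k2] at g2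
        rw [← k1, ← k2, R.inj g1, R.inj g2]
      · rw [← k1] at g1
        rw [← k2] at g2
        rw [← k1, ← k2, R.inj g1, R.inj g2]
        exact Sym2.eq_swap

end

end Pool.Agent.H801.MV
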