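import Pool.Agent.H801.MVBwd

/-!
# The matrix of the constructed graph
-/

set_option autoImplicit false

namespace Pool.Agent.H801.MV

/-- the matrix of a function on labels -/
def cmat {α : Type} (vs : List α) (f : α → α → ℕ) : List (List ℕ) :=
  vs.map fun a => vs.map fun b => f a b

theorem cmat_length {α : Type} (vs : List α) (f : α → α → ℕ) : (cmat vs f).length = vs.length := by
  simp [cmat]

theorem cell_cmat {α : Type} (vs : List α) (f : α → α → ℕ) (i j : ℕ) (hi : i < vs.length)
    (hj : j < vs.length) : cell (cmat vs f) i j = f vs[i] vs[j] := by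
  unfold cell cmat
  rw [List.getD_eq_getElem?_getD (l := List.map _ _), List.getElem?_map,
    List.getElem?_eq_getElem hi]
  simp only [Option.map_some, Option.getD_some]
  rw [List.getD_eq_getElem?_getD, List.getElem?_map, List.getElem?_eq_getElem hj]
  simp

/-- the label of a vertex -/
def clab {α : Type} (vs : List α) (f : α → α → ℕ) (a : Fin (cmat vs f).length) : α :=
  vs.get (Fin.cast (cmat_length vs f) a)

theorem clab_injective {α : Type} {vs : List α} (hnd : vs.Nodup) (f : α → α → ℕ) :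
    Function.Injective (clab vs f) := by
  intro a b h
  have := hnd.injective_get h
  simpa [Fin.ext_iff] using this

theorem clab_mem {α : Type} (vs : List α) (f : α → α → ℕ) (a : Fin (cmat vs f).length) :
    clab vs f a ∈ vs := List.get_mem _ _

theorem exists_clab {α : Type} {vs : List α} (f : α → α → ℕ) {x : α} (hx : x ∈ vs) :
    ∃ a, clab vs f a = x := by
  obtain ⟨i, hi⟩ := List.get_of_mem hx
  refine ⟨Fin.cast (cmat_length vs f).symm i, ?_⟩
  unfold clab
  rw [← hi]
  rfl

theorem edgeLen_cmat {α : Type} {vs : List α} {f : α → α → ℕ} (hf : ∀ x y, f x y = f y x)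
    (a b : Fin (cmat vs f).length) :
    edgeLen (cmat vs f) a b = f (clab vs f a) (clab vs f b) := by
  have ha : (a : ℕ) < vs.length := lt_of_lt_of_eq a.2 (cmat_length vs f)
  have hb : (b : ℕ) < vs.length := lt_of_lt_of_eq b.2 (cmat_length vs f)
  unfold edgeLen
  rcases le_total (a : ℕ) (b : ℕ) with h | h
  · rw [min_eq_left h, max_eq_right h]
    exact cell_cmat vs f a b ha hb
  · rw [min_eq_right h, max_eq_left h, hf]
    exact cell_cmat vs f b a hb ha

/-! ### The list of the vertices -/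

/-- the main vertices -/
def mains (n k : ℕ) : List ML :=
  sM :: tM :: ((List.range k).flatMap fun i => (List.range k).flatMap fun j =>
    (List.range 2).flatMap fun c => (List.range (2 * (n * n) + 1)).map fun p => (2, i, j, c, p))

/-- the labels of the vertices, except for the two terminals -/
def vld (n : ℕ) (E : ℕ → ℕ → Bool) (a : Lab) : Bool :=
  (decide (a.1 = a.2.1) && decide (a.2.2 = 0) && (!decide (a.1 = sM) && !decide (a.1 = tM))) ||
    (!decide (a.1 = a.2.1) && !decide (und n E a.1 a.2.1 = 0))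

/-- the vertices -/
def verts (n k : ℕ) (E : ℕ → ℕ → Bool) : List Lab :=
  mn sM :: mn tM :: ((mains n k).flatMap fun x => (mains n k).flatMap fun y =>
    ((List.range (4 * (k * k) + 1)).map fun r => (x, y, r)).filter (vld n E))

theorem mem_mains {n k : ℕ} {x : ML} : x ∈ mains n k ↔ isM n k x := by
  obtain ⟨h, i, j, c, p⟩ := x
  unfold mains isM
  rw [List.mem_cons, List.mem_cons]
  refine or_congr Iff.rfl (or_congr Iff.rfl ?_)
  simp only [List.mem_flatMap, List.mem_map, List.mem_range, Prod.mk.injEq]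
  constructor
  · rintro ⟨i', hi', j', hj', c', hc', p', hp', rfl, rfl, rfl, rfl, rfl⟩
    exact ⟨rfl, hi', hj', hc', by omega⟩
  · rintro ⟨rfl, hi', hj', hc', hp'⟩
    exact ⟨i, hi', j, hj', c, hc', p, by omega, rfl, rfl, rfl, rfl, rfl⟩

theorem vld_iff {n : ℕ} {E : ℕ → ℕ → Bool} {a : Lab} : vld n E a = true ↔
    (a.1 = a.2.1 ∧ a.2.2 = 0 ∧ a.1 ≠ sM ∧ a.1 ≠ tM) ∨ (a.1 ≠ a.2.1 ∧ und n E a.1 a.2.1 ≠ 0) := by
  unfold vld
  simp [and_assoc]

theorem mem_verts {n k : ℕ} {E : ℕ → ℕ → Bool} {a : Lab} : a ∈ verts n k E ↔ IsV n k E a := by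
  obtain ⟨x, y, r⟩ := a
  unfold verts IsV
  rw [List.mem_cons, List.mem_cons]
  simp only [List.mem_flatMap, List.mem_filter, List.mem_map, List.mem_range, vld_iff,
    Prod.mk.injEq, mem_mains, mn]
  constructor
  · rintro (⟨rfl, rfl, rfl⟩ | ⟨rfl, rfl, rfl⟩ | ⟨x', hx', y', hy', ⟨r', hr', rfl, rfl, rfl⟩, h⟩)
    · exact ⟨Or.inl rfl, Or.inl rfl, Or.inl ⟨rfl, rfl⟩⟩
    · exact ⟨Or.inr (Or.inl rfl), Or.inr (Or.inl rfl), Or.inl ⟨rfl, rfl⟩⟩
    · refine ⟨hx', hy', ?_⟩
      rcases h with h | h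
      · exact Or.inl ⟨h.1, h.2.1⟩
      · exact Or.inr ⟨h.1, h.2, by omega⟩
  · rintro ⟨hx, hy, h⟩
    rcases h with ⟨rfl, rfl⟩ | ⟨h1, h2, h3⟩
    · by_cases hs : x = sM
      · exact Or.inl ⟨hs, hs, rfl⟩
      · by_cases ht : x = tM
        · exact Or.inr (Or.inl ⟨ht, ht, rfl⟩)
        · exact Or.inr (Or.inr ⟨x, hx, x, hx, ⟨0, by omega, rfl, rfl, rfl⟩,
            Or.inl ⟨rfl, rfl, hs, ht⟩⟩)
    · exact Or.inr (Or.inr ⟨x, hx, y, hy, ⟨r, by omega, rfl, rfl, rfl⟩, Or.inr ⟨h1, h2⟩⟩)

theorem nodup_flatMap_key {ι α : Type} {l : List ι} (hl : l.Nodup) (f : ι → List α) (g : α → ι)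
    (hg : ∀ h ∈ l, ∀ x ∈ f h, g x = h) (hf : ∀ h ∈ l, (f h).Nodup) : (l.flatMap f).Nodup := by
  rw [List.nodup_flatMap]
  refine ⟨hf, ?_⟩
  refine List.Pairwise.imp_of_mem ?_ hl
  intro a b ha hb hab
  rw [Function.onFun, List.disjoint_left]
  intro x hx hx'
  exact hab ((hg a ha x hx).symm.trans (hg b hb x hx'))

theorem nodup_mains (n k : ℕ) : (mains n k).Nodup := by
  have hbody : ((List.range k).flatMap fun i => (List.range k).flatMap fun j =>
      (List.range 2).flatMap fun c => (List.range (2 * (n * n) + 1)).map fun p =>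
        ((2, i, j, c, p) : ML)).Nodup := by
    refine nodup_flatMap_key List.nodup_range _ (fun x : ML => x.2.1) ?_ ?_
    · intro i _ x hx
      simp only [List.mem_flatMap, List.mem_map] at hx
      obtain ⟨_, _, _, _, _, _, rfl⟩ := hx
      rfl
    intro i _
    refine nodup_flatMap_key List.nodup_range _ (fun x : ML => x.2.2.1) ?_ ?_
    · intro j _ x hx
      simp only [List.mem_flatMap, List.mem_map] at hx
      obtain ⟨_, _, _, _, rfl⟩ := hx
      rfl
    intro j _
    refine nodup_flatMap_key List.nodup_range _ (fun x : ML => x.2.2.2.1) ?_ ?_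
    · intro c _ x hx
      simp only [List.mem_map] at hx
      obtain ⟨_, _, rfl⟩ := hx
      rfl
    intro c _
    refine List.Nodup.map ?_ List.nodup_range
    intro a b hab
    simpa using hab
  unfold mains
  rw [List.nodup_cons, List.nodup_cons]
  refine ⟨?_, ?_, hbody⟩
  · rw [List.mem_cons]
    rintro (h | h)
    · simp [sM, tM] at h
    · simp only [List.mem_flatMap, List.mem_map] at h
      obtain ⟨_, _, _, _, _, _, _, _, h⟩ := h
      simp [sM] at h
  · intro h
    simp only [List.mem_flatMap, List.mem_map] at h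
    obtain ⟨_, _, _, _, _, _, _, _, h⟩ := h
    simp [tM] at h

theorem nodup_verts (n k : ℕ) (E : ℕ → ℕ → Bool) : (verts n k E).Nodup := by
  have hrest : ((mains n k).flatMap fun x => (mains n k).flatMap fun y =>
      ((List.range (4 * (k * k) + 1)).map fun r => ((x, y, r) : Lab)).filter (vld n E)).Nodup := by
    refine nodup_flatMap_key (nodup_mains n k) _ (fun a : Lab => a.1) ?_ ?_
    · intro x _ a ha
      simp only [List.mem_flatMap, List.mem_filter, List.mem_map] at ha
      obtain ⟨_, _, ⟨_, _, rfl⟩, _⟩ := ha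
      rfl
    intro x _
    refine nodup_flatMap_key (nodup_mains n k) _ (fun a : Lab => a.2.1) ?_ ?_
    · intro y _ a ha
      simp only [List.mem_filter, List.mem_map] at ha
      obtain ⟨⟨_, _, rfl⟩, _⟩ := ha
      rfl
    intro y _
    refine List.Nodup.filter _ (List.Nodup.map ?_ List.nodup_range)
    intro a b hab
    simpa using hab
  unfold verts
  rw [List.nodup_cons, List.nodup_cons]
  refine ⟨?_, ?_, hrest⟩
  · rw [List.mem_cons]
    rintro (h | h)
    · simp [mn, sM, tM] at h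
    · simp only [List.mem_flatMap, List.mem_filter] at h
      obtain ⟨_, _, _, _, _, h⟩ := h
      rw [vld_iff] at h
      simp [mn] at h
  · intro h
    simp only [List.mem_flatMap, List.mem_filter] at h
    obtain ⟨_, _, _, _, _, h⟩ := h
    rw [vld_iff] at h
    simp [mn] at h

theorem col_self {n : ℕ} {E : ℕ → ℕ → Bool} (a : Lab) : col n E a a = 0 := by
  unfold col
  by_cases h : a.1 = a.2.1
  · rw [if_pos h, if_pos h, if_neg]
    obtain ⟨⟨h, i, j, c, p⟩, b⟩ := a
    rw [Bool.or_eq_true]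
    rintro (h | h) <;> rw [ord1_iff] at h <;> omega
  · rw [if_neg h, if_neg h]

/-- The constructed graph with its labels. -/
theorem rep_cmat (n k : ℕ) (E : ℕ → ℕ → Bool) :
    Rep n k E (lenGraph (cmat (verts n k E) (col n E)))
      (fun a b => edgeLen (cmat (verts n k E) (col n E)) a b)
      (clab (verts n k E) (col n E)) where
  inj := clab_injective (nodup_verts n k E) _
  val a := mem_verts.1 (clab_mem _ _ a)
  surj x hx := exists_clab _ (mem_verts.2 hx)
  adj a b := by
    unfold lenGraph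
    simp only
    rw [edgeLen_cmat col_comm]
    constructor
    · exact fun h => h.2
    · intro h
      refine ⟨?_, h⟩
      rintro rfl
      rw [col_self] at h
      exact absurd h (lt_irrefl _)
  len a b _ := edgeLen_cmat col_comm a b

/-- the instance -/
theorem spmve_iff {n k : ℕ} {E : ℕ → ℕ → Bool} (hn : k = 0 ∨ 0 < n) :
    SPMVE (cmat (verts n k E) (col n E), 0, 1, 4 * (k * k),
      8 * (n * n) * (2 * (n * n) + 2) + 8 * (n * n)) ↔
    ∃ x : ℕ → ℕ, (∀ i < k, x i < n) ∧ ∀ i < k, ∀ j < k, i ≠ j → E (x i) (x j) = true := by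
  have hlen : 2 ≤ (cmat (verts n k E) (col n E)).length := by
    rw [cmat_length]
    unfold verts
    simp
  have key : ∀ s t : Fin (cmat (verts n k E) (col n E)).length, (s : ℕ) = 0 → (t : ℕ) = 1 →
      clab (verts n k E) (col n E) s = mn sM ∧ clab (verts n k E) (col n E) t = mn tM := by
    intro s t hs ht
    have h1 : s = ⟨0, by omega⟩ := Fin.ext hs
    have h2 : t = ⟨1, by omega⟩ := Fin.ext ht
    rw [h1, h2]
    exact ⟨rfl, rfl⟩
  constructor
  · rintro ⟨s, t, hs, ht, S, -, hcard, h⟩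
    rcases hn with hk | hn
    · subst hk
      exact ⟨fun _ => 0, fun i hi => absurd hi (Nat.not_lt_zero _),
        fun i hi => absurd hi (Nat.not_lt_zero _)⟩
    · obtain ⟨h1, h2⟩ := key s t hs ht
      exact bwd (rep_cmat n k E) hn h1 h2 S hcard h
  · rintro ⟨x, hx, hc⟩
    have l0 : 0 < (cmat (verts n k E) (col n E)).length := by omega
    have l1 : 1 < (cmat (verts n k E) (col n E)).length := by omega
    obtain ⟨h1, h2⟩ := key ⟨0, l0⟩ ⟨1, l1⟩ rfl rfl
    obtain ⟨S, hS, hcard, h⟩ := fwd (rep_cmat n k E) hx hc h1 h2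
    exact ⟨⟨0, l0⟩, ⟨1, l1⟩, rfl, rfl, S, hS, hcard, fun p _ => h p⟩

/-- a fixed instance with the answer `no` -/
theorem not_spmve : ¬ SPMVE ([[0, 1], [1, 0]], 0, 1, 0, 2) := by
  rintro ⟨s, t, hs, ht, S, -, hcard, h⟩
  have hS : S = ∅ := Finset.card_eq_zero.1 (Nat.le_zero.1 hcard)
  subst hS
  have h1 : s = ⟨0, by simp⟩ := Fin.ext hs
  have h2 : t = ⟨1, by simp⟩ := Fin.ext ht
  subst h1
  subst h2
  have hadj : ((lenGraph [[0, 1], [1, 0]]).deleteEdges
      ((∅ : Finset (Sym2 (Fin [[0, 1], [1, 0]].length))) : Set _)).Adj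
        ⟨0, by simp⟩ ⟨1, by simp⟩ := by
    rw [SimpleGraph.deleteEdges_adj]
    refine ⟨⟨by simp, ?_⟩, by simp⟩
    simp [edgeLen, cell]
  have h3 := h (SimpleGraph.Walk.cons hadj SimpleGraph.Walk.nil) (by
    simp [SimpleGraph.Walk.isPath_def])
  rw [wlen_cons, wlen_nil] at h3
  simp [edgeLen, cell] at h3

end Pool.Agent.H801.MV
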