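import Pool.Agent.H801.MVWalk

/-!
# The constructed graph: labels, lengths
-/

set_option autoImplicit false

namespace Pool.Agent.H801.MV

/-- Labels `(h, i, j, c, p)` of the main vertices: `h = 0` is the source, `h = 1` the sink, and
`(2, i, j, c, p)` is the vertex with number `p` of the chain `(i, j, c)`. -/
abbrev ML : Type := ℕ × ℕ × ℕ × ℕ × ℕ

/-- Labels of all vertices: `(x, x, 0)` for the main vertex `x`, and `(x, y, r)` for a vertex in the
middle of a path with two edges from `x` to `y`. -/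
abbrev Lab : Type := ML × ML × ℕ

/-- the source -/
def sM : ML := (0, 0, 0, 0, 0)
/-- the sink -/
def tM : ML := (1, 0, 0, 0, 0)

/-- may `(u, v)` be chosen for the pair `(i, j)` -/
def okp (E : ℕ → ℕ → Bool) (i j u v : ℕ) : Bool := if i = j then decide (u = v) else E u v

/-- does the edge from `p` to `p + 1` of the chains `(i, j, c)` stand for an allowed choice -/
def useful (n : ℕ) (E : ℕ → ℕ → Bool) (i j p : ℕ) : Bool :=
  if p < n * n then okp E i j (p / n) (p % n) else okp E i j ((p - n * n) % n) ((p - n * n) / n)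

/-- the number `u * n + v` of the pair `(u, v)` belonging to `p` -/
def code (n p : ℕ) : ℕ := if p < n * n then p else ((p - n * n) % n) * n + (p - n * n) / n

/-- the detour for the edge from `p` to `p + 1` of the chain `(i, j, c)` -/
def wt (n : ℕ) (E : ℕ → ℕ → Bool) (i j c p : ℕ) : ℕ :=
  if useful n E i j p = true then
    (if p < n * n then
      (if c = 0 then 3 * (n * n) + code n p else 5 * (n * n) - code n p)
    else (if c = 0 then 5 * (n * n) - code n p else 3 * (n * n) + code n p))
  else 0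

/-- may one change from the chain `(i, j, c)` to the chain `(i', j', c')` at `p` -/
def cross (n i j i' j' p : ℕ) : Bool :=
  (decide (p ≤ n * n) && decide (i = i') && (decide (j = j') || decide (p % n = 0))) ||
  (decide (n * n ≤ p) && decide (j = j') && (decide (i = i') || decide (p % n = 0)))

/-- length of the edges from the middle of the chains to the terminals -/
def dl (n : ℕ) : ℕ := 8 * (n * n) + 8 * (n * n) * (n * n) + 5 * (n * n)

/-- lengths of the edges that cannot be deleted, in one direction -/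
def und1 (n : ℕ) (E : ℕ → ℕ → Bool) (x y : ML) : ℕ :=
  if (decide (x.1 = 0) && decide (y.1 = 2)) = true then
    (if y.2.2.2.2 = 0 then 8 * (n * n) else if y.2.2.2.2 = n * n then dl n else 0)
  else if (decide (x.1 = 2) && decide (y.1 = 1)) = true then
    (if x.2.2.2.2 = 2 * (n * n) then 8 * (n * n) else if x.2.2.2.2 = n * n then dl n else 0)
  else if (decide (x.1 = 2) && decide (y.1 = 2)) = true then
    (if (decide (x.2.1 = y.2.1) && decide (x.2.2.1 = y.2.2.1) && decide (x.2.2.2.1 = y.2.2.2.1) &&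
        decide (y.2.2.2.2 = x.2.2.2.2 + 1)) = true then
      8 * (n * n) + wt n E x.2.1 x.2.2.1 x.2.2.2.1 x.2.2.2.2
    else if (decide (x.2.2.2.2 = y.2.2.2.2) && !decide (x = y) &&
        cross n x.2.1 x.2.2.1 y.2.1 y.2.2.1 x.2.2.2.2) = true then 2 * (n * n) else 0)
  else 0

/-- lengths of the edges that cannot be deleted -/
def und (n : ℕ) (E : ℕ → ℕ → Bool) (x y : ML) : ℕ := max (und1 n E x y) (und1 n E y x)

/-- edges that can be deleted, in one direction -/
def ord1 (x y : ML) : Bool :=
  decide (x.1 = 2) && decide (y.1 = 2) && decide (x.2.1 = y.2.1) && decide (x.2.2.1 = y.2.2.1) &&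
    decide (x.2.2.2.1 = y.2.2.2.1) && decide (y.2.2.2.2 = x.2.2.2.2 + 1)

/-- length of the edge between a vertex in the middle and a main vertex -/
def half (n : ℕ) (E : ℕ → ℕ → Bool) (m : Lab) (x : ML) : ℕ :=
  if m.1 = x then 1 else if m.2.1 = x then und n E m.1 m.2.1 - 1 else 0

/-- the length of the edge between two vertices (`0` if there is none) -/
def col (n : ℕ) (E : ℕ → ℕ → Bool) (a b : Lab) : ℕ :=
  if a.1 = a.2.1 then
    (if b.1 = b.2.1 then (if (ord1 a.1 b.1 || ord1 b.1 a.1) = true then 8 * (n * n) else 0)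
    else half n E b a.1)
  else (if b.1 = b.2.1 then half n E a b.1 else 0)

/-- main labels -/
def isM (n k : ℕ) (x : ML) : Prop :=
  x = sM ∨ x = tM ∨ (x.1 = 2 ∧ x.2.1 < k ∧ x.2.2.1 < k ∧ x.2.2.2.1 < 2 ∧ x.2.2.2.2 ≤ 2 * (n * n))

/-- labels of vertices -/
def IsV (n k : ℕ) (E : ℕ → ℕ → Bool) (a : Lab) : Prop :=
  isM n k a.1 ∧ isM n k a.2.1 ∧
    ((a.1 = a.2.1 ∧ a.2.2 = 0) ∨ (a.1 ≠ a.2.1 ∧ und n E a.1 a.2.1 ≠ 0 ∧ a.2.2 ≤ 4 * (k * k)))

/-- A graph whose vertices are labelled. -/
structure Rep (n k : ℕ) (E : ℕ → ℕ → Bool) {V : Type} (G : SimpleGraph V) (len : V → V → ℕ)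
    (lab : V → Lab) : Prop where
  inj : Function.Injective lab
  val : ∀ a, IsV n k E (lab a)
  surj : ∀ x, IsV n k E x → ∃ a, lab a = x
  adj : ∀ a b, G.Adj a b ↔ 0 < col n E (lab a) (lab b)
  len : ∀ a b, G.Adj a b → len a b = col n E (lab a) (lab b)

/-! ### Simple facts -/

section facts
variable {n k : ℕ} {E : ℕ → ℕ → Bool}

theorem und_comm (x y : ML) : und n E x y = und n E y x := max_comm _ _

theorem col_comm (a b : Lab) : col n E a b = col n E b a := by
  unfold col
  by_cases h1 : a.1 = a.2.1 <;> by_cases h2 : b.1 = b.2.1 <;> simp [h1, h2, Bool.or_comm]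

theorem ord1_iff {h i j c p h' i' j' c' p' : ℕ} : ord1 (h, i, j, c, p) (h', i', j', c', p') = true ↔
    h = 2 ∧ h' = 2 ∧ i = i' ∧ j = j' ∧ c = c' ∧ p' = p + 1 := by
  unfold ord1
  simp [and_assoc]

theorem und1_s {i j c p : ℕ} : und1 n E sM (2, i, j, c, p) =
    if p = 0 then 8 * (n * n) else if p = n * n then dl n else 0 := by
  simp [und1, sM]

theorem und1_t {i j c p : ℕ} : und1 n E (2, i, j, c, p) tM =
    if p = 2 * (n * n) then 8 * (n * n) else if p = n * n then dl n else 0 := by
  simp [und1, tM]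

theorem und1_ch {i j c p i' j' c' p' : ℕ} : und1 n E (2, i, j, c, p) (2, i', j', c', p') =
    if i = i' ∧ j = j' ∧ c = c' ∧ p' = p + 1 then 8 * (n * n) + wt n E i j c p
    else if p = p' ∧ ¬ (i = i' ∧ j = j' ∧ c = c') ∧ cross n i j i' j' p = true then 2 * (n * n)
    else 0 := by
  by_cases h1 : i = i' <;> by_cases h2 : j = j' <;> by_cases h3 : c = c' <;>
    by_cases h4 : p' = p + 1 <;> by_cases h5 : p = p' <;> simp_all [und1]

theorem und1_xs {x : ML} : und1 n E x sM = 0 := by
  simp [und1, sM]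

theorem und1_tx {x : ML} : und1 n E tM x = 0 := by
  simp [und1, tM]

theorem und1_st : und1 n E sM tM = 0 := by
  simp [und1, tM, sM]

end facts

end Pool.Agent.H801.MV
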