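import Pool.Agent.H801.MVDefs

set_option autoImplicit false

namespace Pool.Agent.H801.MV

variable {V : Type} {G : SimpleGraph V} (len : V → V → ℕ)

@[simp] theorem wlen_nil (a : V) : wlen len (SimpleGraph.Walk.nil : G.Walk a a) = 0 := rfl

@[simp] theorem wlen_cons {a b c : V} (h : G.Adj a b) (p : G.Walk b c) :
    wlen len (SimpleGraph.Walk.cons h p) = len a b + wlen len p := by
  simp [wlen]

theorem wlen_append {a b c : V} (p : G.Walk a b) (q : G.Walk b c) :
    wlen len (p.append q) = wlen len p + wlen len q := by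
  simp [wlen, SimpleGraph.Walk.darts_append]

theorem wlen_bypass_le [DecidableEq V] {a b : V} (p : G.Walk a b) :
    wlen len p.bypass ≤ wlen len p := by
  unfold wlen
  have h1 : p.bypass.darts.Nodup := SimpleGraph.Walk.darts_nodup_of_support_nodup
    (SimpleGraph.Walk.bypass_isPath p).support_nodup
  have h2 : p.bypass.darts.Subperm p.darts := h1.subperm (SimpleGraph.Walk.darts_bypass_subset_darts p)
  obtain ⟨l, hl1, hl2⟩ := h2
  rw [← (hl1.map (fun d : G.Dart => len d.fst d.snd)).sum_eq]
  exact (hl2.map (fun d : G.Dart => len d.fst d.snd)).sum_le_sum (fun _ _ => Nat.zero_le _)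

theorem wlen_pot (φ : V → ℤ) (h : ∀ a b, G.Adj a b → φ b - φ a ≤ len a b) {a b : V}
    (p : G.Walk a b) : φ b - φ a ≤ wlen len p := by
  induction p with
  | nil => simp
  | cons hadj p ih =>
    rw [wlen_cons]
    have := h _ _ hadj
    push_cast
    linarith

end Pool.Agent.H801.MV
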